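import Pool.Agent.H34.PW.Fin
import Pool.Agent.H34.CM.MT

/-!
MT: the exact moment threshold with the integral test for symmetric measures.
-/

namespace Pool.Agent.H34.PW

open Pool.Agent.H34.LS Pool.Agent.H34.FL Pool.Agent.H34.DA Pool.Agent.H34.MI Pool.Agent.H34.CM

theorem image_slow {G : Type} [Group G] (theta : G →* GG) (ht : Function.Surjective theta)
    {mu : G → ℝ} (h : IsProb mu) (hg : Generating mu) (hm : SlowMoment mu) :
    SlowMoment (image (fun g => theta g) mu) := by
  obtain ⟨S, hf, hS, hdiv⟩ := hm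
  have hS' := closure_image_top theta ht hS
  refine ⟨theta '' S, hf.image _, hS', fun hsum => hdiv ?_⟩
  have hp := fun j => trunc_pos (image_prob theta h) (image_gen theta ht h hg) hS' j
  refine Summable.of_nonneg_of_le (fun j => ?_) (fun j => ?_) hsum
  · exact inv_nonneg.2 ((hp j).trans_le (trunc_image theta h hS j)).le
  · exact inv_anti₀ (hp j) (trunc_image theta h hS j)

/-- a finite second moment implies the condition `SlowMoment`. -/
theorem slow_of_second {G : Type} [Group G] {mu : G → ℝ} (h : IsProb mu) (hm : SecondMoment mu)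
    (hpos : ∀ S : Set G, Subgroup.closure S = ⊤ → ∀ j, 0 < trunc S mu j) : SlowMoment mu := by
  obtain ⟨S, hf, hS, hs⟩ := hm
  refine ⟨S, hf, hS, fun hsum => ?_⟩
  have hle : ∀ j, trunc S mu j ≤ ∑' g, mu g * (wordLength S g : ℝ) ^ 2 := by
    intro j
    have h1 : ∀ g, mu g * (min (wordLength S g : ℝ) (2 ^ j)) ^ 2 ≤
        mu g * (wordLength S g : ℝ) ^ 2 := fun g =>
      mul_le_mul_of_nonneg_left (pow_le_pow_left₀ (by positivity) (min_le_left _ _) 2) (h.1 g)
    exact (Summable.of_nonneg_of_le (fun g => mul_nonneg (h.1 g) (by positivity)) h1 hs).tsum_le_tsum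
      h1 hs
  have h2 := hsum.tendsto_atTop_zero
  have hM : 0 < ∑' g, mu g * (wordLength S g : ℝ) ^ 2 := (hpos S hS 0).trans_le (hle 0)
  have h3 : (∑' g, mu g * (wordLength S g : ℝ) ^ 2)⁻¹ ≤ 0 :=
    ge_of_tendsto' h2 fun j => inv_anti₀ (hpos S hS j) (hle j)
  exact absurd h3 (not_le.2 (inv_pos.2 hM))

theorem moment_threshold3 :
    ∃ (G : Type) (_ : Group G) (f : G →* Multiplicative ℤ), Group.FG G ∧ LocFinByZ G ∧
      LacunaryHyperbolic G ∧ Function.Surjective f ∧
      (∃ mu : G → ℝ, IsFSProb mu ∧ Generating mu ∧ Symm mu ∧ mean f mu = 0) ∧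
      (∃ mu : G → ℝ, IsFSProb mu ∧ Generating mu ∧ mean f mu ≠ 0) ∧
      (∀ mu : G → ℝ, IsProb mu → Generating mu → SecondMoment mu →
        (Liouville mu ↔ mean f mu = 0)) ∧
      (∀ mu : G → ℝ, IsProb mu → Generating mu → Symm mu → SlowMoment mu → Liouville mu) ∧
      (∀ mu : G → ℝ, IsProb mu → Generating mu → SecondMoment mu → SlowMoment mu) ∧
      (∀ mu : G → ℝ, IsProb mu → Generating mu → FirstMoment mu → mean f mu ≠ 0 →
        ¬ Liouville mu) ∧
      ∃ mu : G → ℝ, IsProb mu ∧ Generating mu ∧ Symm mu ∧ mean f mu = 0 ∧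
        (∀ S : Set G, S.Finite → Subgroup.closure S = ⊤ → ∀ p : ℝ, 0 ≤ p → p < 2 →
          Summable fun g => mu g * (wordLength S g : ℝ) ^ p) ∧
        (∀ S : Set G, S.Finite → Subgroup.closure S = ⊤ →
          Summable fun g => mu g * ((wordLength S g : ℝ) ^ 2 /
            Real.log (2 + (wordLength S g : ℝ)) ^ 6)) ∧ ¬ Liouville mu := by
  obtain ⟨G, iG, theta, hlac, _, hloc, hsurj, _, hmu, hlift⟩ :=
    lift_limit GG (limit_of_locFin gg_fg gg_locFinByZ)
  have hfg : Group.FG G := by
    obtain ⟨S, hS, hS2, _⟩ := hlac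
    exact ⟨⟨hS.toFinset, by simpa using hS2⟩⟩
  have hf : Function.Surjective (hgt.comp theta) := by
    rw [MonoidHom.coe_comp]
    exact hgt_surj.comp hsurj
  haveI : Nontrivial G := by
    obtain ⟨a, ha⟩ := hsurj gT
    refine ⟨a, 1, fun h => ?_⟩
    rw [h, map_one] at ha
    have h1 := hgt_T
    rw [← ha, map_one] at h1
    exact absurd h1 (by decide)
  have hdrift : ∀ mu : G → ℝ, IsProb mu → Generating mu → FirstMoment mu →
      mean (hgt.comp theta) mu ≠ 0 → ¬ Liouville mu := by
    intro mu h hg hm hd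
    rw [(hmu mu h hg).2]
    refine drift_first hgt gg_onto.surj gg_onto.locfin gg_onto.infinite (image_prob theta h)
      (image_first theta hsurj h hm) ?_
    rw [image_mean theta hgt h hm]
    exact hd
  have hcent : ∀ mu : G → ℝ, IsProb mu → Generating mu → SecondMoment mu →
      mean (hgt.comp theta) mu = 0 → Liouville mu := by
    intro mu h hg hm h0
    rw [(hmu mu h hg).2]
    refine centered_sm hgt gg_small (image_prob theta h) (image_gen theta hsurj h hg)
      (image_second theta hsurj h hm) ?_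
    rw [image_mean theta hgt h (first_of_second h hm)]
    exact h0
  refine ⟨G, iG, hgt.comp theta, hfg, hloc gg_locFinByZ, hlac, hf, ?_, ?_, ?_, ?_, ?_, hdrift, ?_⟩
  · obtain ⟨mu, h1, h2, h3⟩ := exists_symm hfg
    exact ⟨mu, h1, h2, h3, by rw [mean_eq _ h1, Pool.Agent.H34.DC.drift_symm _ h3]⟩
  · obtain ⟨mu, h1, h2, h3⟩ := Pool.Agent.H34.DC.exists_drift hfg (hgt.comp theta) hf
    exact ⟨mu, h1, h2, by rw [mean_eq _ h1]; exact h3⟩
  · intro mu h hg hm
    constructor
    · intro hL
      by_contra hd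
      exact hdrift mu h hg (first_of_second h hm) hd hL
    · exact hcent mu h hg hm
  · intro mu h hg hs hm
    rw [(hmu mu h hg).2]
    exact gg_slow (image_prob theta h) (image_gen theta hsurj h hg) (image_symm theta hs)
      (image_slow theta hsurj h hg hm)
  · intro mu h hg hm
    exact slow_of_second h hm fun S hS j => trunc_pos h hg hS j
  · obtain ⟨mu, h1, h2, h3, h4, h5, h6⟩ := below_two theta hsurj fun mu' k1 k2 k3 => by
      obtain ⟨mu, l1, l2, l3, l4⟩ := hlift mu' k1 k2 k3
      exact ⟨mu, l1, l2, l3, by rw [← image_push _ l1, l4]⟩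
    exact ⟨mu, h1, h2, h3, mean_symm _ h3, h4, h5, h6⟩

end Pool.Agent.H34.PW
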