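import Pool.Agent.H34.PW.Defs

/-!
W1: Harnack. `Submonoid.closure_induction` over `b` (`Generating mu`: the closure of the support is `⊤`): `b = 1`: `p = 1`; `b` in the support: `p = mu b` (`le_hasSum` with the other terms nonnegative); a product `a * b`: `p = p a * p b`
(`w x ≥ p a * w (x * a) ≥ p a * p b * w (x * a * b)`).
-/

namespace Pool.Agent.H34.PW

open Pool.Agent.H34.LS Pool.Agent.H34.FL

universe u

theorem harnack {G : Type u} [Group G] {mu : G → ℝ} (h : IsProb mu) (hg : Generating mu) (b : G) :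
    ∃ p : ℝ, 0 < p ∧ ∀ w : G → ℝ, (∀ x, 0 ≤ w x) →
      (∀ x, HasSum (fun s => mu s * w (x * s)) (w x)) → ∀ x, p * w (x * b) ≤ w x := by
  have hb : b ∈ Submonoid.closure (Function.support mu) := by
    have h1 : Submonoid.closure (Function.support mu) = ⊤ := hg
    rw [h1]
    exact Submonoid.mem_top b
  induction hb using Submonoid.closure_induction with
  | mem b hb =>
    refine ⟨mu b, lt_of_le_of_ne (h.1 b) (fun h2 => hb h2.symm), fun w hw hs x => ?_⟩
    exact le_hasSum (hs x) b fun j _ => mul_nonneg (h.1 j) (hw _)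
  | one =>
    refine ⟨1, one_pos, fun w _ _ x => ?_⟩
    rw [mul_one, one_mul]
  | mul a b _ _ iha ihb =>
    obtain ⟨p, hp, hp2⟩ := iha
    obtain ⟨q, hq, hq2⟩ := ihb
    refine ⟨p * q, mul_pos hp hq, fun w hw hs x => ?_⟩
    calc p * q * w (x * (a * b)) = p * (q * w (x * a * b)) := by rw [mul_assoc, mul_assoc]
      _ ≤ p * w (x * a) := mul_le_mul_of_nonneg_left (hq2 w hw hs (x * a)) hp.le
      _ ≤ w x := hp2 w hw hs x

end Pool.Agent.H34.PW
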