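import Pool.Agent.H34.FL.Defs

/-!
# Recurrent actions and bounded harmonic functions: definitions
-/

namespace Pool.Agent.H34.PW

open Pool.Agent.H34.LS Pool.Agent.H34.FL

universe u v

/-- averages along the walk `z ↦ s z` on `Y`. -/
noncomputable def avg {G : Type u} [Group G] {Y : Type v} (act : G →* Equiv.Perm Y) (mu : G → ℝ)
    (g : Y → ℝ) : Y → ℝ := fun z => ∑' s, mu s * g (act s z)

/-- expected number of visits to `y0` before the time `N` of the walk `z ↦ s z`. -/
noncomputable def gr {G : Type u} [Group G] {Y : Type v} (act : G →* Equiv.Perm Y) (mu : G → ℝ)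
    (y0 : Y) : ℕ → Y → ℝ
  | 0 => fun _ => 0
  | N + 1 => fun z => Set.indicator {y0} (fun _ => (1 : ℝ)) z + avg act mu (gr act mu y0 N) z

/-- (twice) the energy of a finitely supported function on `Y`. -/
noncomputable def en {G : Type u} [Group G] {Y : Type v} (act : G →* Equiv.Perm Y) (mu : G → ℝ)
    (ξ : Y →₀ ℝ) : ℝ := ∑' s, mu s * ∑' y, (ξ y - ξ (act s y)) ^ 2

/-- the second moment of the word length, cut off at `2 ^ j`. -/
noncomputable def trunc {G : Type u} [Group G] (S : Set G) (mu : G → ℝ) (j : ℕ) : ℝ :=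
  ∑' g, mu g * (min (wordLength S g : ℝ) (2 ^ j)) ^ 2

/-- the second moment diverges slowly or not at all: the sum of the `1 / trunc S mu j` is infinite. -/
def SlowMoment {G : Type u} [Group G] (mu : G → ℝ) : Prop :=
  ∃ S : Set G, S.Finite ∧ Subgroup.closure S = ⊤ ∧ ¬ Summable fun j : ℕ => (trunc S mu j)⁻¹

/-- the cut-off function at the scale `2 ^ j`. -/
noncomputable def phi {Y : Type v} (Bx : ℕ → Finset Y) (j : ℕ) (y : Y) : ℝ :=
  (∑ n ∈ Finset.Ico (2 ^ j) (2 ^ (j + 1)), Set.indicator (Bx n : Set Y) (fun _ => (1 : ℝ)) y) / 2 ^ j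

end Pool.Agent.H34.PW
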