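import Pool.Agent.H34.PW.G1

/-!
G2: Picone. `g` from `green`. For reals `a, b` and `p, q > 0`: `(p - q) * (a^2 / p - b^2 / q) ≤ (a - b)^2` (equivalent to `2 a b ≤ q a^2 / p + p b^2 / q`). With `a = ξ y, b = ξ (act s y), p = g y, q = g (act s y)`; sum over `y` (finite supports), then over `s` with weights `mu s`. For fixed `s`
`∑_y (g y - g (act s y)) (ξ y^2 / g y - ξ (act s y)^2 / g (act s y)) = ∑_y (g y - g (act s y)) ξ y^2 / g y + ∑_y (g y - g (act s⁻¹ y)) ξ y^2 / g y` (`Equiv.tsum_eq (act s)` in the second part).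
Sum over `s` (`Symm mu`, the `y`-sums are finite sums over `ξ.support`): `2 * ∑_{y ∈ supp ξ} ξ y^2 / g y * (g y - ∑' mu s * g (act s y)) = 2 * ξ y0^2 / g y0 ≥ 2 * ξ y0^2 / (B + 1)`. Summability over `s`: each `y`-sum is at most `4 * ∑ ξ y^2`.
-/

namespace Pool.Agent.H34.PW

open Pool.Agent.H34.LS Pool.Agent.H34.FL

universe u v

variable {G : Type u} [Group G] {Y : Type v} (act : G →* Equiv.Perm Y) {mu : G → ℝ} (y0 : Y)

/-- the sum of the `ξ y^2 * g (act s y) / g y`. -/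
private noncomputable def g2E (g : Y → ℝ) (ξ : Y →₀ ℝ) (s : G) : ℝ :=
  ∑ y ∈ ξ.support, ξ y ^ 2 * (g (act s y) / g y)

private theorem g2_sq (ξ : Y →₀ ℝ) (w : Y → ℝ) :
    HasSum (fun y => ξ y ^ 2 * w y) (∑ y ∈ ξ.support, ξ y ^ 2 * w y) := by
  apply hasSum_sum_of_ne_finset_zero
  intro y hy
  rw [Finsupp.notMem_support_iff] at hy
  rw [hy]
  ring

private theorem g2_ptw (a b p q : ℝ) (hp : 0 < p) (hq : 0 < q) :
    2 * a * b ≤ a ^ 2 * (q / p) + b ^ 2 * (p / q) := by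
  have h : 0 ≤ (a * q - b * p) ^ 2 / (p * q) := by positivity
  have e : a ^ 2 * (q / p) + b ^ 2 * (p / q) - 2 * a * b = (a * q - b * p) ^ 2 / (p * q) := by
    field_simp
    ring
  linarith

private theorem g2_D (g : Y → ℝ) (hg : ∀ y, 1 ≤ g y) (ξ : Y →₀ ℝ) (s : G) :
    2 * (∑ y ∈ ξ.support, ξ y ^ 2) - g2E act g ξ s - g2E act g ξ s⁻¹ ≤
      ∑' y, (ξ y - ξ (act s y)) ^ 2 ∧
    ∑' y, (ξ y - ξ (act s y)) ^ 2 ≤ 4 * ∑ y ∈ ξ.support, ξ y ^ 2 := by
  have h1 : HasSum (fun y => ξ y ^ 2) (∑ y ∈ ξ.support, ξ y ^ 2) := by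
    simpa using g2_sq ξ (fun _ => 1)
  have h2 : HasSum (fun y => ξ (act s y) ^ 2) (∑ y ∈ ξ.support, ξ y ^ 2) :=
    (Equiv.hasSum_iff (act s)).mpr h1
  have h3 : HasSum (fun y => ξ y ^ 2 * (g (act s y) / g y)) (g2E act g ξ s) := g2_sq ξ _
  have h4 : HasSum (fun y => ξ (act s y) ^ 2 * (g y / g (act s y))) (g2E act g ξ s⁻¹) := by
    have h5 : HasSum (fun y => ξ y ^ 2 * (g (act s⁻¹ y) / g y)) (g2E act g ξ s⁻¹) := g2_sq ξ _
    have h6 := (Equiv.hasSum_iff (act s)).mpr h5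
    have h7 : (fun y => ξ (act s y) ^ 2 * (g y / g (act s y))) =
        (fun y => ξ y ^ 2 * (g (act s⁻¹ y) / g y)) ∘ (act s) := by
      funext y
      have h8 : act s⁻¹ (act s y) = y := by
        rw [← Equiv.Perm.mul_apply, ← map_mul, inv_mul_cancel, map_one, Equiv.Perm.one_apply]
      simp only [Function.comp_apply, h8]
    rw [h7]
    exact h6
  have h12 : HasSum (fun y => 2 * (ξ y ^ 2 + ξ (act s y) ^ 2))
      (2 * (∑ y ∈ ξ.support, ξ y ^ 2 + ∑ y ∈ ξ.support, ξ y ^ 2)) := (h1.add h2).mul_left 2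
  have hle : ∀ y, (ξ y - ξ (act s y)) ^ 2 ≤ 2 * (ξ y ^ 2 + ξ (act s y) ^ 2) := fun y => by
    nlinarith [sq_nonneg (ξ y + ξ (act s y))]
  have hsm : Summable fun y => (ξ y - ξ (act s y)) ^ 2 :=
    Summable.of_nonneg_of_le (fun y => sq_nonneg _) hle h12.summable
  constructor
  · have h5 : HasSum (fun y => ξ y ^ 2 + ξ (act s y) ^ 2 - ξ y ^ 2 * (g (act s y) / g y) -
        ξ (act s y) ^ 2 * (g y / g (act s y)))
        (∑ y ∈ ξ.support, ξ y ^ 2 + ∑ y ∈ ξ.support, ξ y ^ 2 - g2E act g ξ s - g2E act g ξ s⁻¹) :=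
      ((h1.add h2).sub h3).sub h4
    have h6 := hasSum_le (fun y => by
      have := g2_ptw (ξ y) (ξ (act s y)) (g y) (g (act s y)) (by linarith [hg y])
        (by linarith [hg (act s y)])
      show ξ y ^ 2 + ξ (act s y) ^ 2 - ξ y ^ 2 * (g (act s y) / g y) -
        ξ (act s y) ^ 2 * (g y / g (act s y)) ≤ (ξ y - ξ (act s y)) ^ 2
      nlinarith) h5 hsm.hasSum
    linarith
  · have h6 := hasSum_le hle hsm.hasSum h12
    linarith

theorem picone (h : IsProb mu) (hs : Symm mu) {B : ℝ} (hB : ∀ N, gr act mu y0 N y0 ≤ B)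
    (ξ : Y →₀ ℝ) : ξ y0 ^ 2 ≤ (B + 1) * en act mu ξ := by
  classical
  obtain ⟨g, hg, hG⟩ := green act y0 h hB
  have hg1 : ∀ y, 1 ≤ g y := fun y => (hg y).1
  set N : ℝ := ∑ y ∈ ξ.support, ξ y ^ 2 with hN
  have hN0 : 0 ≤ N := Finset.sum_nonneg fun y _ => sq_nonneg _
  -- the sum over `s` of the first part
  have hval : ∑ y ∈ ξ.support, ξ y ^ 2 / g y * (g y - Set.indicator {y0} (fun _ => (1 : ℝ)) y) =
      N - ξ y0 ^ 2 / g y0 := by
    have e1 : ∀ y ∈ ξ.support, ξ y ^ 2 / g y * (g y - Set.indicator {y0} (fun _ => (1 : ℝ)) y) =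
        ξ y ^ 2 - if y = y0 then ξ y0 ^ 2 / g y0 else 0 := by
      intro y _
      have hy : g y ≠ 0 := by have := hg1 y; positivity
      by_cases hyy : y = y0
      · subst hyy
        rw [Set.indicator_of_mem (Set.mem_singleton y), if_pos rfl]
        field_simp
      · rw [Set.indicator_of_notMem (by simpa using hyy), if_neg hyy, sub_zero, sub_zero]
        exact div_mul_cancel₀ _ hy
    rw [Finset.sum_congr rfl e1, Finset.sum_sub_distrib, Finset.sum_ite_eq']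
    by_cases h0 : y0 ∈ ξ.support
    · rw [if_pos h0]
    · rw [if_neg h0]
      rw [Finsupp.notMem_support_iff] at h0
      rw [h0]
      simp [hN]
  have hE : HasSum (fun s => mu s * g2E act g ξ s) (N - ξ y0 ^ 2 / g y0) := by
    have e1 : HasSum (fun s => ∑ y ∈ ξ.support, ξ y ^ 2 / g y * (mu s * g (act s y)))
        (∑ y ∈ ξ.support, ξ y ^ 2 / g y * (g y - Set.indicator {y0} (fun _ => (1 : ℝ)) y)) :=
      hasSum_sum fun y _ => (hG y).mul_left _
    rw [hval] at e1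
    have e2 : (fun s => mu s * g2E act g ξ s) =
        fun s => ∑ y ∈ ξ.support, ξ y ^ 2 / g y * (mu s * g (act s y)) := by
      funext s
      unfold g2E
      rw [Finset.mul_sum]
      refine Finset.sum_congr rfl fun y _ => ?_
      ring
    rw [e2]
    exact e1
  have hE' : HasSum (fun s => mu s * g2E act g ξ s⁻¹) (N - ξ y0 ^ 2 / g y0) := by
    have e1 := (Equiv.hasSum_iff (Equiv.inv G)).mpr hE
    have e2 : (fun s => mu s * g2E act g ξ s⁻¹) =
        (fun s => mu s * g2E act g ξ s) ∘ (Equiv.inv G) := by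
      funext s
      simp only [Function.comp_apply, Equiv.inv_apply]
      rw [hs s]
    rw [e2]
    exact e1
  have hM : HasSum (fun s => mu s * (2 * N)) (2 * N) := by
    simpa using h.2.mul_right (2 * N)
  have hM4 : HasSum (fun s => mu s * (4 * N)) (4 * N) := by
    simpa using h.2.mul_right (4 * N)
  have hD := fun s => g2_D act g hg1 ξ s
  have hD0 : ∀ s, 0 ≤ ∑' y, (ξ y - ξ (act s y)) ^ 2 := fun s => tsum_nonneg fun y => sq_nonneg _
  have hsm : Summable fun s => mu s * ∑' y, (ξ y - ξ (act s y)) ^ 2 := by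
    refine Summable.of_nonneg_of_le (fun s => mul_nonneg (h.1 s) (hD0 s)) (fun s => ?_) hM4.summable
    exact mul_le_mul_of_nonneg_left (hD s).2 (h.1 s)
  have hlow : HasSum (fun s => mu s * (2 * N) - mu s * g2E act g ξ s - mu s * g2E act g ξ s⁻¹)
      (2 * N - (N - ξ y0 ^ 2 / g y0) - (N - ξ y0 ^ 2 / g y0)) := (hM.sub hE).sub hE'
  have hfin := hasSum_le (fun s => by
    show mu s * (2 * N) - mu s * g2E act g ξ s - mu s * g2E act g ξ s⁻¹ ≤
      mu s * ∑' y, (ξ y - ξ (act s y)) ^ 2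
    have := mul_le_mul_of_nonneg_left (hD s).1 (h.1 s)
    linarith) hlow hsm.hasSum
  have hen : en act mu ξ = ∑' s, mu s * ∑' y, (ξ y - ξ (act s y)) ^ 2 := rfl
  rw [← hen] at hfin
  have hen0 : 0 ≤ en act mu ξ := by
    rw [hen]
    exact tsum_nonneg fun s => mul_nonneg (h.1 s) (hD0 s)
  have hg0 : 0 < g y0 := by linarith [hg1 y0]
  have h1 : ξ y0 ^ 2 / g y0 ≤ en act mu ξ := by
    have : 0 ≤ ξ y0 ^ 2 / g y0 := by positivity
    linarith
  rw [div_le_iff₀ hg0] at h1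
  calc ξ y0 ^ 2 ≤ en act mu ξ * g y0 := h1
    _ ≤ en act mu ξ * (B + 1) := mul_le_mul_of_nonneg_left (hg y0).2 hen0
    _ = (B + 1) * en act mu ξ := mul_comm _ _

end Pool.Agent.H34.PW
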