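import Pool.Agent.H34.PW.T2

/-!
T3: test functions. `c j = (trunc S mu j)⁻¹ > 0`, `ξ = ∑_{j < J} c j * phi j` (finitely supported: `phi_mem`; `Finsupp.onFinset` with the finite set `Bx (2^(J+1))`), `ξ y0 = ∑_{j < J} c j =: Z` (`phi_eq_one`). For fixed `s`:
`∑' y (ξ y - ξ (act s y))^2 = ∑_{i, j} c i c j ∑' y D_i D_j ≤ 2 ∑_{i ≤ j} c i c j 18 K (2^i / 2^j) (min |s| 2^j)^2` (`pair_sum`); multiply by `mu s` and sum over `s`: `∑' s mu s (min |s| 2^j)^2 = trunc j = 1 / c j`:
`en ξ ≤ 36 K ∑_{i ≤ j} c i (2^i / 2^j) ≤ 72 K ∑_i c i = 72 K Z`. As the `c j` are not summable, `Z → ∞` (`not_summable_iff_tendsto_nat_atTop_of_nonneg`), choose `J` with `Z > 0` and `72 K ≤ e * Z`.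
-/

namespace Pool.Agent.H34.PW

open Pool.Agent.H34.LS Pool.Agent.H34.FL

universe u v

variable {G : Type u} [Group G] {Y : Type v}

private theorem t3_hasSum {mu : G → ℝ} (h : IsProb mu) (S : Set G) (j : ℕ) :
    HasSum (fun s => mu s * (min (wordLength S s : ℝ) (2 ^ j)) ^ 2) (trunc S mu j) := by
  have hs : Summable (fun s => mu s * (min (wordLength S s : ℝ) (2 ^ j)) ^ 2) := by
    refine Summable.of_nonneg_of_le (fun s => mul_nonneg (h.1 s) (sq_nonneg _)) (fun s => ?_)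
      (h.2.summable.mul_right ((2 ^ j : ℝ) ^ 2))
    refine mul_le_mul_of_nonneg_left ?_ (h.1 s)
    exact pow_le_pow_left₀ (le_min (by positivity) (by positivity)) (min_le_right _ _) 2
  exact hs.hasSum

private theorem t3_pair (act : G →* Equiv.Perm Y) {S : Set G} (hS : Subgroup.closure S = ⊤)
    {Bx : ℕ → Finset Y} (hm : Monotone Bx)
    (hact : ∀ s ∈ S, ∀ n, ∀ y ∈ Bx n, act s y ∈ Bx (n + 1) ∧ act s⁻¹ y ∈ Bx (n + 1))
    {K : ℕ} (hK : ∀ n, (Bx n).card ≤ K * (n + 1) ^ 2) (s : G) (i j : ℕ) :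
    (Function.support fun y => (phi Bx i y - phi Bx i (act s y)) *
        (phi Bx j y - phi Bx j (act s y))).Finite ∧
      ∑' y, (phi Bx i y - phi Bx i (act s y)) * (phi Bx j y - phi Bx j (act s y)) ≤
        18 * K * ((2 : ℝ) ^ (min i j) / 2 ^ (max i j)) *
          (min (wordLength S s : ℝ) (2 ^ (max i j))) ^ 2 := by
  rcases le_total i j with hij | hij
  · rw [min_eq_left hij, max_eq_right hij]
    have h1 := pair_sum act hS hm hact hK s hij
    exact ⟨h1.1, (le_abs_self _).trans h1.2⟩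
  · rw [min_eq_right hij, max_eq_left hij]
    have h1 := pair_sum act hS hm hact hK s hij
    have e : (fun y => (phi Bx i y - phi Bx i (act s y)) * (phi Bx j y - phi Bx j (act s y))) =
        fun y => (phi Bx j y - phi Bx j (act s y)) * (phi Bx i y - phi Bx i (act s y)) :=
      funext fun y => mul_comm _ _
    rw [e]
    exact ⟨h1.1, (le_abs_self _).trans h1.2⟩

private theorem t3_geom (i m : ℕ) :
    ∑ j ∈ Finset.range (i + m), (if i ≤ j then (2 : ℝ) ^ i / 2 ^ j else 0) = 2 - 2 / 2 ^ m := by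
  induction m with
  | zero =>
    rw [Finset.sum_eq_zero]
    · norm_num
    · intro j hj
      rw [Finset.mem_range] at hj
      exact if_neg (by omega)
  | succ m ih =>
    rw [← add_assoc, Finset.sum_range_succ, ih, if_pos (by omega), pow_add, pow_succ]
    have h2 : (2 : ℝ) ^ i ≠ 0 := by positivity
    have h3 : (2 : ℝ) ^ m ≠ 0 := by positivity
    field_simp
    ring

private theorem t3_geom_le (i J : ℕ) :
    ∑ j ∈ Finset.range J, (if i ≤ j then (2 : ℝ) ^ i / 2 ^ j else 0) ≤ 2 := by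
  have h1 : ∑ j ∈ Finset.range J, (if i ≤ j then (2 : ℝ) ^ i / 2 ^ j else 0) ≤
      ∑ j ∈ Finset.range (i + J), (if i ≤ j then (2 : ℝ) ^ i / 2 ^ j else 0) := by
    refine Finset.sum_le_sum_of_subset_of_nonneg ?_ ?_
    · intro j hj
      rw [Finset.mem_range] at hj ⊢
      omega
    · intro j _ _
      split_ifs
      · positivity
      · exact le_refl _
  rw [t3_geom] at h1
  have h2 : (0 : ℝ) ≤ 2 / 2 ^ J := by positivity
  linarith

private theorem t3_double {c t : ℕ → ℝ} (hc : ∀ j, 0 < c j) (hct : ∀ j, c j * t j = 1) {K : ℝ}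
    (hK : 0 ≤ K) (J : ℕ) :
    ∑ i ∈ Finset.range J, ∑ j ∈ Finset.range J,
      c i * c j * (18 * K * ((2 : ℝ) ^ (min i j) / 2 ^ (max i j)) * t (max i j)) ≤
      72 * K * ∑ j ∈ Finset.range J, c j := by
  have hterm : ∀ i j : ℕ,
      c i * c j * (18 * K * ((2 : ℝ) ^ (min i j) / 2 ^ (max i j)) * t (max i j)) ≤
      18 * K * (c i * (if i ≤ j then (2 : ℝ) ^ i / 2 ^ j else 0)) +
        18 * K * (c j * (if j ≤ i then (2 : ℝ) ^ j / 2 ^ i else 0)) := by
    intro i j
    rcases le_total i j with hij | hij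
    · rw [min_eq_left hij, max_eq_right hij, if_pos hij]
      have e : c i * c j * (18 * K * ((2 : ℝ) ^ i / 2 ^ j) * t j) =
          18 * K * (c i * ((2 : ℝ) ^ i / 2 ^ j)) * (c j * t j) := by ring
      rw [e, hct, mul_one]
      have h2 : 0 ≤ 18 * K * (c j * (if j ≤ i then (2 : ℝ) ^ j / 2 ^ i else 0)) := by
        refine mul_nonneg (by positivity) (mul_nonneg (hc j).le ?_)
        split_ifs
        · positivity
        · exact le_refl _
      linarith
    · rw [min_eq_right hij, max_eq_left hij, if_pos hij]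
      have e : c i * c j * (18 * K * ((2 : ℝ) ^ j / 2 ^ i) * t i) =
          18 * K * (c j * ((2 : ℝ) ^ j / 2 ^ i)) * (c i * t i) := by ring
      rw [e, hct, mul_one]
      have h2 : 0 ≤ 18 * K * (c i * (if i ≤ j then (2 : ℝ) ^ i / 2 ^ j else 0)) := by
        refine mul_nonneg (by positivity) (mul_nonneg (hc i).le ?_)
        split_ifs
        · positivity
        · exact le_refl _
      linarith
  have hrow : ∀ i : ℕ, ∑ j ∈ Finset.range J,
      18 * K * (c i * (if i ≤ j then (2 : ℝ) ^ i / 2 ^ j else 0)) ≤ 36 * K * c i := by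
    intro i
    rw [← Finset.mul_sum, ← Finset.mul_sum]
    have h1 := t3_geom_le i J
    have h2 := mul_le_mul_of_nonneg_left h1 (hc i).le
    have h3 := mul_le_mul_of_nonneg_left h2 (by positivity : 0 ≤ 18 * K)
    linarith
  have hsum : ∑ i ∈ Finset.range J, ∑ j ∈ Finset.range J,
      18 * K * (c i * (if i ≤ j then (2 : ℝ) ^ i / 2 ^ j else 0)) ≤
      36 * K * ∑ j ∈ Finset.range J, c j := by
    rw [Finset.mul_sum]
    exact Finset.sum_le_sum fun i _ => hrow i
  have hsum2 : ∑ i ∈ Finset.range J, ∑ j ∈ Finset.range J,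
      18 * K * (c j * (if j ≤ i then (2 : ℝ) ^ j / 2 ^ i else 0)) ≤
      36 * K * ∑ j ∈ Finset.range J, c j := by
    rw [Finset.sum_comm]
    exact hsum
  have hall : ∑ i ∈ Finset.range J, ∑ j ∈ Finset.range J,
      c i * c j * (18 * K * ((2 : ℝ) ^ (min i j) / 2 ^ (max i j)) * t (max i j)) ≤
      ∑ i ∈ Finset.range J, ∑ j ∈ Finset.range J,
        (18 * K * (c i * (if i ≤ j then (2 : ℝ) ^ i / 2 ^ j else 0)) +
        18 * K * (c j * (if j ≤ i then (2 : ℝ) ^ j / 2 ^ i else 0))) :=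
    Finset.sum_le_sum fun i _ => Finset.sum_le_sum fun j _ => hterm i j
  simp only [Finset.sum_add_distrib] at hall
  linarith

theorem tests (act : G →* Equiv.Perm Y) {mu : G → ℝ} (h : IsProb mu) {S : Set G}
    (hS : Subgroup.closure S = ⊤) {Bx : ℕ → Finset Y} (hm : Monotone Bx)
    (hact : ∀ s ∈ S, ∀ n, ∀ y ∈ Bx n, act s y ∈ Bx (n + 1) ∧ act s⁻¹ y ∈ Bx (n + 1))
    {K : ℕ} (hK : ∀ n, (Bx n).card ≤ K * (n + 1) ^ 2) {y0 : Y} (h0 : y0 ∈ Bx 0)
    (hpos : ∀ j, 0 < trunc S mu j) (hdiv : ¬ Summable fun j : ℕ => (trunc S mu j)⁻¹)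
    {e : ℝ} (he : 0 < e) : ∃ ξ : Y →₀ ℝ, 0 < ξ y0 ∧ en act mu ξ ≤ e * ξ y0 ^ 2 := by
  have hc : ∀ j, 0 < (trunc S mu j)⁻¹ := fun j => inv_pos.2 (hpos j)
  have htend := (not_summable_iff_tendsto_nat_atTop_of_nonneg (fun j => (hc j).le)).1 hdiv
  obtain ⟨J, hJ⟩ := (htend.eventually_ge_atTop (max 1 (72 * K / e))).exists
  have hJ1 : 1 ≤ ∑ j ∈ Finset.range J, (trunc S mu j)⁻¹ := (le_max_left _ _).trans hJ
  have hJ2 : 72 * K ≤ e * ∑ j ∈ Finset.range J, (trunc S mu j)⁻¹ := by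
    have h1 := (le_max_right _ _).trans hJ
    rw [div_le_iff₀ he] at h1
    linarith
  have hmem : ∀ y, ∑ j ∈ Finset.range J, (trunc S mu j)⁻¹ * phi Bx j y ≠ 0 → y ∈ Bx (2 ^ J) := by
    intro y hy
    obtain ⟨j, hj, hj2⟩ := Finset.exists_ne_zero_of_sum_ne_zero hy
    have h3 : phi Bx j y ≠ 0 := right_ne_zero_of_mul hj2
    have h4 := phi_mem hm h3
    rw [Finset.mem_range] at hj
    exact hm (Nat.pow_le_pow_right (by norm_num) (by omega)) h4
  let ξ : Y →₀ ℝ := Finsupp.onFinset (Bx (2 ^ J))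
    (fun y => ∑ j ∈ Finset.range J, (trunc S mu j)⁻¹ * phi Bx j y) hmem
  have hξ : ∀ y, ξ y = ∑ j ∈ Finset.range J, (trunc S mu j)⁻¹ * phi Bx j y := fun y => rfl
  have hξ0 : ξ y0 = ∑ j ∈ Finset.range J, (trunc S mu j)⁻¹ := by
    rw [hξ]
    refine Finset.sum_congr rfl fun j _ => ?_
    rw [phi_eq_one hm h0 j, mul_one]
  refine ⟨ξ, ?_, ?_⟩
  · rw [hξ0]
    linarith
  · have hs : ∀ s, ∑' y, (ξ y - ξ (act s y)) ^ 2 ≤
        ∑ i ∈ Finset.range J, ∑ j ∈ Finset.range J, (trunc S mu i)⁻¹ * (trunc S mu j)⁻¹ *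
          (18 * K * ((2 : ℝ) ^ (min i j) / 2 ^ (max i j)) *
          (min (wordLength S s : ℝ) (2 ^ (max i j))) ^ 2) := by
      intro s
      have e1 : ∀ y, (ξ y - ξ (act s y)) ^ 2 =
          ∑ i ∈ Finset.range J, ∑ j ∈ Finset.range J, (trunc S mu i)⁻¹ * (trunc S mu j)⁻¹ *
            ((phi Bx i y - phi Bx i (act s y)) * (phi Bx j y - phi Bx j (act s y))) := by
        intro y
        have e2 : ξ y - ξ (act s y) = ∑ j ∈ Finset.range J,
            (trunc S mu j)⁻¹ * (phi Bx j y - phi Bx j (act s y)) := by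
          rw [hξ, hξ, ← Finset.sum_sub_distrib]
          exact Finset.sum_congr rfl fun j _ => by ring
        rw [e2, sq, Finset.sum_mul_sum]
        exact Finset.sum_congr rfl fun i _ => Finset.sum_congr rfl fun j _ => by ring
      have e3 : HasSum (fun y => (ξ y - ξ (act s y)) ^ 2)
          (∑ i ∈ Finset.range J, ∑ j ∈ Finset.range J, (trunc S mu i)⁻¹ * (trunc S mu j)⁻¹ *
            ∑' y, (phi Bx i y - phi Bx i (act s y)) * (phi Bx j y - phi Bx j (act s y))) := by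
        rw [funext e1]
        refine hasSum_sum fun i _ => hasSum_sum fun j _ => ?_
        refine HasSum.mul_left _ ?_
        exact (summable_of_hasFiniteSupport (t3_pair act hS hm hact hK s i j).1).hasSum
      rw [e3.tsum_eq]
      refine Finset.sum_le_sum fun i _ => Finset.sum_le_sum fun j _ => ?_
      exact mul_le_mul_of_nonneg_left (t3_pair act hS hm hact hK s i j).2
        (mul_nonneg (hc i).le (hc j).le)
    have hg : HasSum (fun s => mu s * ∑ i ∈ Finset.range J, ∑ j ∈ Finset.range J,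
        (trunc S mu i)⁻¹ * (trunc S mu j)⁻¹ *
          (18 * K * ((2 : ℝ) ^ (min i j) / 2 ^ (max i j)) *
          (min (wordLength S s : ℝ) (2 ^ (max i j))) ^ 2))
        (∑ i ∈ Finset.range J, ∑ j ∈ Finset.range J, (trunc S mu i)⁻¹ * (trunc S mu j)⁻¹ *
          (18 * K * ((2 : ℝ) ^ (min i j) / 2 ^ (max i j)) * trunc S mu (max i j))) := by
      have e4 : (fun s => mu s * ∑ i ∈ Finset.range J, ∑ j ∈ Finset.range J,
          (trunc S mu i)⁻¹ * (trunc S mu j)⁻¹ *
          (18 * K * ((2 : ℝ) ^ (min i j) / 2 ^ (max i j)) *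
          (min (wordLength S s : ℝ) (2 ^ (max i j))) ^ 2)) =
          fun s => ∑ i ∈ Finset.range J, ∑ j ∈ Finset.range J,
          (trunc S mu i)⁻¹ * (trunc S mu j)⁻¹ *
          (18 * K * ((2 : ℝ) ^ (min i j) / 2 ^ (max i j)) *
          (mu s * (min (wordLength S s : ℝ) (2 ^ (max i j))) ^ 2)) := by
        funext s
        rw [Finset.mul_sum]
        refine Finset.sum_congr rfl fun i _ => ?_
        rw [Finset.mul_sum]
        exact Finset.sum_congr rfl fun j _ => by ring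
      rw [e4]
      refine hasSum_sum fun i _ => hasSum_sum fun j _ => ?_
      exact HasSum.mul_left _ (HasSum.mul_left _ (t3_hasSum h S (max i j)))
    have hle : ∀ s, mu s * ∑' y, (ξ y - ξ (act s y)) ^ 2 ≤
        mu s * ∑ i ∈ Finset.range J, ∑ j ∈ Finset.range J,
        (trunc S mu i)⁻¹ * (trunc S mu j)⁻¹ *
          (18 * K * ((2 : ℝ) ^ (min i j) / 2 ^ (max i j)) *
          (min (wordLength S s : ℝ) (2 ^ (max i j))) ^ 2) :=
      fun s => mul_le_mul_of_nonneg_left (hs s) (h.1 s)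
    have hf : Summable fun s => mu s * ∑' y, (ξ y - ξ (act s y)) ^ 2 :=
      Summable.of_nonneg_of_le (fun s => mul_nonneg (h.1 s) (tsum_nonneg fun y => sq_nonneg _)) hle
        hg.summable
    have h5 : en act mu ξ ≤ 72 * K * ∑ j ∈ Finset.range J, (trunc S mu j)⁻¹ := by
      have h6 : en act mu ξ ≤ _ := hasSum_le hle hf.hasSum hg
      refine h6.trans ?_
      exact t3_double hc (fun j => inv_mul_cancel₀ (hpos j).ne') (Nat.cast_nonneg K) J
    rw [hξ0]
    refine h5.trans ?_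
    have h7 := mul_le_mul_of_nonneg_right hJ2
      (by linarith : 0 ≤ ∑ j ∈ Finset.range J, (trunc S mu j)⁻¹)
    calc _ ≤ _ := h7
      _ = _ := by ring

end Pool.Agent.H34.PW
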