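import Pool.Agent.H34.PW.Y1

/-!
Y2: the boxes `y2Box n = {(v, m) : |m| ≤ n, v i = 0 if i > log₂ n}` (as images of `Finset.powerset (Finset.range L) ×ˢ Finset.Icc (-n) n` under `(s, m) ↦ (ind s, m)`, `L = Nat.log 2 n + 1`; `2^L ≤ 2 (n + 1)`; compare `box`, `box_card` in MI/B, MI/W).
The toggle at height `m` changes only the coordinate `i = log₂ m`, `1 ≤ m ≤ n` (`ee`). Inverses: `gT⁻¹` lowers the height by `1`, `gA⁻¹ = gA`, `gB⁻¹ = gB`.
-/

namespace Pool.Agent.H34.PW

open Pool.Agent.H34.LS Pool.Agent.H34.MI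

open Classical in
/-- the boxes. -/
noncomputable def y2Box (n : ℕ) : Finset YY :=
  ((Finset.range (Nat.log 2 n + 1)).powerset ×ˢ Finset.Icc (-(n : ℤ)) n).image
    (fun p => (ind p.1, p.2))

private theorem y2_one : ∀ a : ZMod 2, a ≠ 0 → a = 1 := by decide

private theorem y2_mem (n : ℕ) (y : YY) : y ∈ y2Box n ↔
    (∀ i, Nat.log 2 n < i → y.1 i = 0) ∧ -(n : ℤ) ≤ y.2 ∧ y.2 ≤ n := by
  classical
  unfold y2Box
  rw [Finset.mem_image]
  constructor
  · rintro ⟨⟨s, m⟩, hp, rfl⟩
    rw [Finset.mem_product, Finset.mem_powerset, Finset.mem_Icc] at hp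
    refine ⟨fun i hi => ?_, hp.2⟩
    have h1 : i ∉ s := fun h => by
      have := Finset.mem_range.1 (hp.1 h)
      omega
    show ind s i = 0
    unfold ind
    rw [if_neg h1]
  · rintro ⟨h1, h2⟩
    refine ⟨((Finset.range (Nat.log 2 n + 1)).filter (fun i => y.1 i ≠ 0), y.2), ?_, ?_⟩
    · rw [Finset.mem_product, Finset.mem_powerset, Finset.mem_Icc]
      exact ⟨Finset.filter_subset _ _, h2⟩
    · ext1
      · funext i
        show ind _ i = y.1 i
        unfold ind
        by_cases hi : y.1 i = 0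
        · rw [if_neg (by simp [hi]), hi]
        · have hi1 : y.1 i = 1 := y2_one _ hi
          have hr : i < Nat.log 2 n + 1 := by
            by_contra h
            exact hi (h1 i (by omega))
          rw [if_pos (Finset.mem_filter.2 ⟨Finset.mem_range.2 hr, hi⟩), hi1]
      · rfl

private theorem y2_card (n : ℕ) : (y2Box n).card ≤ 4 * (n + 1) ^ 2 := by
  classical
  have h1 : (y2Box n).card ≤ 2 ^ (Nat.log 2 n + 1) * (2 * n + 1) := by
    unfold y2Box
    refine Finset.card_image_le.trans ?_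
    have h : (Finset.Icc (-(n : ℤ)) n).card = 2 * n + 1 := by
      rw [Int.card_Icc]
      omega
    rw [Finset.card_product, Finset.card_powerset, Finset.card_range, h]
  have h2 : 2 ^ (Nat.log 2 n + 1) ≤ 2 * (n + 1) := by
    rcases Nat.eq_zero_or_pos n with rfl | hn
    · simp
    · have h3 : 2 ^ Nat.log 2 n ≤ n := Nat.pow_log_le_self 2 (by omega)
      rw [pow_succ]
      omega
  calc (y2Box n).card ≤ 2 ^ (Nat.log 2 n + 1) * (2 * n + 1) := h1
    _ ≤ (2 * (n + 1)) * (2 * (n + 1)) := Nat.mul_le_mul h2 (by omega)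
    _ = 4 * (n + 1) ^ 2 := by ring

private theorem y2_ee {n : ℕ} {m : ℤ} (hm : m ≤ n) {i : ℕ} (hi : Nat.log 2 n < i) :
    ee m i = 0 := by
  unfold ee
  rw [if_neg]
  rintro ⟨h1, h2⟩
  have h3 : Nat.log 2 m.toNat ≤ Nat.log 2 n := Nat.log_mono_right (by omega)
  omega

private theorem y2_log (n : ℕ) : Nat.log 2 n ≤ Nat.log 2 (n + 1) := Nat.log_mono_right (by omega)

private theorem y2_inv (g : GG) (y z : YY) (h : actY g z = y) : actY g⁻¹ y = z := by
  rw [map_inv, Equiv.Perm.inv_eq_iff_eq]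
  exact h.symm

private theorem y2_add (v w : ℕ → ZMod 2) : v + w + w = v := by
  funext i
  show v i + w i + w i = v i
  rw [add_assoc, CharTwo.add_self_eq_zero, add_zero]

theorem exists_boxes : ∃ (Bx : ℕ → Finset YY) (K : ℕ), Monotone Bx ∧ ((0, 0) : YY) ∈ Bx 0 ∧
    (∀ s ∈ gS, ∀ n, ∀ y ∈ Bx n, actY s y ∈ Bx (n + 1) ∧ actY s⁻¹ y ∈ Bx (n + 1)) ∧
    ∀ n, (Bx n).card ≤ K * (n + 1) ^ 2 := by
  have hmono : Monotone y2Box := by
    intro m n hmn y hy
    rw [y2_mem] at hy ⊢
    obtain ⟨h1, h2, h3⟩ := hy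
    have h4 : Nat.log 2 m ≤ Nat.log 2 n := Nat.log_mono_right hmn
    exact ⟨fun i hi => h1 i (by omega), by omega, by omega⟩
  refine ⟨y2Box, 4, hmono, ?_, ?_, y2_card⟩
  · rw [y2_mem]
    exact ⟨fun _ _ => rfl, by simp, by simp⟩
  · intro s hs n y hy
    have hy' := (y2_mem n y).1 hy
    obtain ⟨h1, h2, h3⟩ := hy'
    have hA : (y.1 + ee y.2, y.2) ∈ y2Box (n + 1) := by
      rw [y2_mem]
      refine ⟨fun i hi => ?_, by push_cast; omega, by push_cast; omega⟩
      have hi' : Nat.log 2 n < i := lt_of_le_of_lt (y2_log n) hi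
      show y.1 i + ee y.2 i = 0
      rw [h1 i hi', y2_ee h3 hi', add_zero]
    rcases hs with rfl | rfl | hs
    · constructor
      · rw [actY_T, y2_mem]
        exact ⟨fun i hi => h1 i (lt_of_le_of_lt (y2_log n) hi), by push_cast; omega,
          by push_cast; omega⟩
      · rw [y2_inv gT y (y.1, y.2 - 1) (by rw [actY_T]; ext1 <;> simp), y2_mem]
        exact ⟨fun i hi => h1 i (lt_of_le_of_lt (y2_log n) hi), by push_cast; omega,
          by push_cast; omega⟩
    · constructor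
      · rw [actY_A]
        exact hA
      · rw [y2_inv gA y (y.1 + ee y.2, y.2) (by
          rw [actY_A]
          ext1
          · exact y2_add _ _
          · rfl)]
        exact hA
    · rw [Set.mem_singleton_iff.1 hs]
      constructor
      · rw [actY_B]
        exact hmono (Nat.le_succ n) hy
      · rw [y2_inv gB y y (actY_B y)]
        exact hmono (Nat.le_succ n) hy

end Pool.Agent.H34.PW
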