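import Pool.Agent.H34.PW.Y3

/-!
Y4b: `conj_A`: `actY (g A g⁻¹) (v, m) = (v + ee (m - hgt g), m)` by `actY_form` (write `(v, m) = actY g (v', m')`, `m' = m - hgt g`, `actY g (v' + w, m') = actY g (v', m') + (w, 0)`), so it depends only on `hgt g`. `inv_AB`: if `u` is invariant under all conjugates of `gA` and `gB` (left multiplication),
then `u` depends only on the height: the normal closure of `{gA, gB}` and the powers of `gT` give everything: `N ⊔ zpowers gT = ⊤`; if `hgt x = hgt x'`, then `x = n gT^k`, `x' = n' gT^k'`, `k = k'` (`hgt_T`, `N ≤ ker`), so `x' = (n' n⁻¹) x`.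
-/

namespace Pool.Agent.H34.PW

open Pool.Agent.H34.LS Pool.Agent.H34.MI

private theorem y4b_sup :
    Subgroup.normalClosure ({gA, gB} : Set GG) ⊔ Subgroup.zpowers gT = ⊤ := by
  rw [eq_top_iff, ← gS_closure, Subgroup.closure_le]
  intro g hg
  rcases hg with rfl | rfl | hg
  · exact (le_sup_right : Subgroup.zpowers gT ≤ _) (Subgroup.mem_zpowers gT)
  · exact (le_sup_left : Subgroup.normalClosure ({gA, gB} : Set GG) ≤ _)
      (Subgroup.subset_normalClosure (Or.inl rfl))
  · exact (le_sup_left : Subgroup.normalClosure ({gA, gB} : Set GG) ≤ _)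
      (Subgroup.subset_normalClosure (Or.inr hg))

private theorem y4b_le : Subgroup.normalClosure ({gA, gB} : Set GG) ≤ hgt.ker := by
  refine Subgroup.normalClosure_le_normal ?_
  intro g hg
  rcases hg with rfl | hg
  · exact Multiplicative.toAdd.injective hgt_A
  · rw [Set.mem_singleton_iff.1 hg]
    exact Multiplicative.toAdd.injective hgt_B

private theorem y4b_mem {g : GG} (h : hgt g = 1) :
    g ∈ Subgroup.normalClosure ({gA, gB} : Set GG) := by
  have h1 : g ∈ Subgroup.normalClosure ({gA, gB} : Set GG) ⊔ Subgroup.zpowers gT := by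
    rw [y4b_sup]
    exact Subgroup.mem_top g
  rw [← SetLike.mem_coe, Subgroup.normal_mul, Set.mem_mul] at h1
  obtain ⟨n, hn, k, hk, rfl⟩ := h1
  obtain ⟨j, rfl⟩ := Subgroup.mem_zpowers_iff.1 hk
  have h2 : hgt n = 1 := y4b_le hn
  have h3 : hgt gT ^ j = 1 := by rwa [map_mul, h2, one_mul, map_zpow] at h
  have h4 : j = 0 := by
    have h5 := congrArg Multiplicative.toAdd h3
    rw [toAdd_zpow, hgt_T, smul_eq_mul, mul_one] at h5
    exact h5
  rw [h4, zpow_zero, mul_one]
  exact hn

theorem inv_AB {u : GG → ℝ} (hA : ∀ g x, u (g * gA * g⁻¹ * x) = u x)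
    (hB : ∀ g x, u (g * gB * g⁻¹ * x) = u x) {x x' : GG} (h : hgt x = hgt x') : u x = u x' := by
  have h1 : x * x'⁻¹ ∈ Subgroup.normalClosure ({gA, gB} : Set GG) := by
    apply y4b_mem
    rw [map_mul, map_inv, h, mul_inv_cancel]
  have h2 : ∀ n ∈ Subgroup.normalClosure ({gA, gB} : Set GG), ∀ y, u (n * y) = u y := by
    intro n hn
    refine Subgroup.closure_induction (p := fun (g : GG) _ => ∀ y, u (g * y) = u y)
      ?_ ?_ ?_ ?_ hn
    · intro g hg y
      obtain ⟨b, hb, hc⟩ := Group.mem_conjugatesOfSet_iff.1 hg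
      obtain ⟨c, rfl⟩ := isConj_iff.1 hc
      rcases hb with rfl | hb
      · exact hA c y
      · rw [Set.mem_singleton_iff.1 hb]
        exact hB c y
    · intro y
      rw [one_mul]
    · intro g k _ _ ihg ihk y
      rw [mul_assoc, ihg, ihk]
    · intro g _ ih y
      rw [← ih (g⁻¹ * y), mul_inv_cancel_left]
  have h3 := h2 _ h1 x'
  rwa [inv_mul_cancel_right] at h3

end Pool.Agent.H34.PW
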