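import Pool.Agent.H34.PW.Y4a
import Pool.Agent.H34.PW.Y4b

/-!
Y4: proofs in Y4a, Y4b.
-/
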