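import Pool.Agent.H34.PW.W2
import Pool.Agent.H34.MI.A
import Pool.Agent.H34.DA.F1
import Pool.Agent.H34.DA.I

/-!
Z1b: `gr_factor`: induction on `N` (indicator of `{y0}` at `y` is at most the indicator of `{π y0}` at `π y`; `gr_summable` for both). `hgt_const`: a bounded harmonic function which depends only on the height is constant: `v k = u (gT ^ k)`, `u x = v (toAdd (hgt x))`, `q = image (fun g => toAdd (hgt g)) mu` (`image_prob`, `image_sum`),
`v k = ∑' j, q j * v (k + j)`; the support of `q` generates `ℤ` (as in DA/I2 `image_pos_gen`; `hgt_surj`), `cd_int`.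
-/

namespace Pool.Agent.H34.PW

open Pool.Agent.H34.LS Pool.Agent.H34.FL Pool.Agent.H34.MI

universe u v w

private theorem z1b_supp {mu : GG → ℝ} (h : IsProb mu) {x : GG} (hx : mu x ≠ 0) :
    Multiplicative.toAdd (hgt x) ∈
      Function.support (image (fun x : GG => Multiplicative.toAdd (hgt x)) mu) := by
  rw [Function.mem_support]
  have h1 : 0 < mu x := lt_of_le_of_ne (h.1 x) hx.symm
  have h2 : Summable fun g : {g : GG // Multiplicative.toAdd (hgt g) =
      Multiplicative.toAdd (hgt x)} => mu g := h.2.summable.subtype _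
  have h3 : mu x ≤ ∑' g : {g : GG // Multiplicative.toAdd (hgt g) =
      Multiplicative.toAdd (hgt x)}, mu g :=
    h2.le_tsum (⟨x, rfl⟩ : {g : GG // Multiplicative.toAdd (hgt g) =
      Multiplicative.toAdd (hgt x)}) fun g _ => h.1 g
  have h4 : 0 < image (fun x : GG => Multiplicative.toAdd (hgt x)) mu
      (Multiplicative.toAdd (hgt x)) := lt_of_lt_of_le h1 h3
  exact h4.ne'

private theorem z1b_gen {mu : GG → ℝ} (h : IsProb mu) (hg : Generating mu) :
    AddSubmonoid.closure (Function.support
      (image (fun x : GG => Multiplicative.toAdd (hgt x)) mu)) = ⊤ := by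
  have h1 : ∀ x : GG, Multiplicative.toAdd (hgt x) ∈
      AddSubmonoid.closure (Function.support
        (image (fun x : GG => Multiplicative.toAdd (hgt x)) mu)) := by
    intro x
    have hx : x ∈ Submonoid.closure (Function.support mu) := by
      have h2 : Submonoid.closure (Function.support mu) = ⊤ := hg
      rw [h2]
      exact Submonoid.mem_top x
    induction hx using Submonoid.closure_induction with
    | mem y hy => exact AddSubmonoid.subset_closure (z1b_supp h hy)
    | one =>
      rw [map_one, toAdd_one]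
      exact AddSubmonoid.zero_mem _
    | mul y z _ _ hy hz =>
      rw [map_mul, toAdd_mul]
      exact AddSubmonoid.add_mem _ hy hz
  rw [eq_top_iff]
  intro k _
  obtain ⟨g, hgk⟩ := hgt_surj (Multiplicative.ofAdd k)
  have h2 := h1 g
  rw [hgk, toAdd_ofAdd] at h2
  exact h2

private theorem z1b_T (k : ℤ) : Multiplicative.toAdd (hgt (gT ^ k)) = k := by
  rw [map_zpow, toAdd_zpow, hgt_T, smul_eq_mul, mul_one]

theorem hgt_const {mu : GG → ℝ} (h : IsProb mu) (hg : Generating mu) {u : GG → ℝ}
    (hu : BddHarm mu u) (hh : ∀ x x', hgt x = hgt x' → u x = u x') (x x' : GG) : u x = u x' := by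
  obtain ⟨v, hv⟩ : ∃ v : ℤ → ℝ, v = fun k => u (gT ^ k) := ⟨_, rfl⟩
  have huv : ∀ g : GG, u g = v (Multiplicative.toAdd (hgt g)) := by
    intro g
    rw [hv]
    apply hh
    apply Multiplicative.toAdd.injective
    exact (z1b_T _).symm
  obtain ⟨⟨C, hC⟩, hharm⟩ := hu
  obtain ⟨q, hq⟩ : ∃ q : ℤ → ℝ, q = image (fun x : GG => Multiplicative.toAdd (hgt x)) mu :=
    ⟨_, rfl⟩
  have hq1 : HasSum q 1 := by
    have h3 := Pool.Agent.H34.DA.image_sum (fun x : GG => Multiplicative.toAdd (hgt x)) h
      (φ := fun _ => (1 : ℝ)) (by simpa using h.2.summable)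
    simp only [mul_one] at h3
    rw [h.2.tsum_eq] at h3
    rw [hq]
    exact h3
  have hqp : IsProb q := by
    refine ⟨fun j => ?_, hq1⟩
    rw [hq]
    exact tsum_nonneg fun g => h.1 _
  have hgen : AddSubmonoid.closure (Function.support q) = ⊤ := by
    rw [hq]
    exact z1b_gen h hg
  have hvC : ∀ k, |v k| ≤ C := by
    intro k
    rw [hv]
    exact hC _
  have hvh : ∀ k, v k = ∑' j, q j * v (k + j) := by
    intro k
    have h1 := hharm (gT ^ k)
    have h2 : (fun g => mu g * u (gT ^ k * g)) =
        fun g => mu g * v (k + Multiplicative.toAdd (hgt g)) := by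
      funext g
      rw [huv (gT ^ k * g), map_mul, toAdd_mul, z1b_T]
    rw [h2] at h1
    have h3 := Pool.Agent.H34.DA.image_sum (fun x : GG => Multiplicative.toAdd (hgt x)) h
      (φ := fun j => v (k + j)) h1.summable
    rw [← hq] at h3
    have h4 : v k = u (gT ^ k) := by rw [hv]
    rw [h3.tsum_eq, h4]
    exact h1.tsum_eq.symm
  rw [huv x, huv x']
  exact Pool.Agent.H34.DA.cd_int hqp hgen hvC hvh _ _

end Pool.Agent.H34.PW
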