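import Pool.Agent.H34.PW.Z1a
import Pool.Agent.H34.PW.Z1b

/-!
Z1: proofs in Z1a, Z1b.
-/
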