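import Pool.Agent.H34.PW.Defs
import Pool.Agent.H34.CM.M1

/-!
Z2b: `image_symm`: `image theta mu y⁻¹ = image theta mu y`: the fibres over `y` and `y⁻¹` correspond under `g ↦ g⁻¹` (`Equiv.tsum_eq`). `trunc_pos`: `trunc = 0` would give `mu g * min(..)^2 = 0` for all `g` (`hasSum_zero_iff_of_nonneg`; summable since the factors are at most `4^j`), so `wordLength S g = 0`, `g = 1` for all `g` in the support
(then `Generating` gives that `G` is trivial). `image_slow`: `trunc (theta '' S) (image mu) j = ∑' g, mu g * (min (wordLength (theta '' S) (theta g)) 2^j)^2 ≤ trunc S mu j` (`image_sum`, `wl_map_le`), so the inverses for the image are at least those for `mu` (`trunc_pos` for the image, `inv_anti₀`), `Summable.of_nonneg_of_le`.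
-/

namespace Pool.Agent.H34.PW

open Pool.Agent.H34.LS Pool.Agent.H34.FL Pool.Agent.H34.DA Pool.Agent.H34.CM

universe u v

variable {G : Type u} [Group G] {G' : Type v} [Group G']

private theorem z2b_sum {G : Type u} [Group G] {mu : G → ℝ} (h : IsProb mu) (w : G → ℝ)
    (hw : ∀ g, 0 ≤ w g) (j : ℕ) : Summable fun g => mu g * (min (w g) (2 ^ j)) ^ 2 := by
  refine Summable.of_nonneg_of_le (fun g => mul_nonneg (h.1 g) (by positivity)) (fun g => ?_)
    (h.2.summable.mul_right (((2 : ℝ) ^ j) ^ 2))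
  refine mul_le_mul_of_nonneg_left ?_ (h.1 g)
  exact pow_le_pow_left₀ (le_min (hw g) (by positivity)) (min_le_right _ _) 2

theorem trunc_image (theta : G →* G') {mu : G → ℝ} (h : IsProb mu) {S : Set G}
    (hS : Subgroup.closure S = ⊤) (j : ℕ) :
    trunc (theta '' S) (image (fun g => theta g) mu) j ≤ trunc S mu j := by
  have h1 := image_sum (fun g => theta g) h
    (φ := fun y => (min (wordLength (theta '' S) y : ℝ) (2 ^ j)) ^ 2)
    (z2b_sum h (fun g => (wordLength (theta '' S) (theta g) : ℝ)) (fun g => Nat.cast_nonneg _) j)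
  unfold trunc
  rw [h1.tsum_eq]
  refine Summable.tsum_le_tsum (fun g => ?_)
    (z2b_sum h (fun g => (wordLength (theta '' S) (theta g) : ℝ)) (fun g => Nat.cast_nonneg _) j)
    (z2b_sum h (fun g => (wordLength S g : ℝ)) (fun g => Nat.cast_nonneg _) j)
  refine mul_le_mul_of_nonneg_left ?_ (h.1 g)
  have h2 : (wordLength (theta '' S) (theta g) : ℝ) ≤ (wordLength S g : ℝ) := by
    exact_mod_cast wl_map_le theta hS g
  exact pow_le_pow_left₀ (le_min (Nat.cast_nonneg _) (by positivity)) (min_le_min_right _ h2) 2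

private theorem z2b_wl {S S' : Set G} (hf : S.Finite)
    (hS : Subgroup.closure S = ⊤) (hS' : Subgroup.closure S' = ⊤) :
    ∃ M : ℕ, 1 ≤ M ∧ ∀ g, wordLength S' g ≤ M * wordLength S g := by
  obtain ⟨M, hM⟩ := (hf.image fun s => wordLength S' s).bddAbove
  have hlist : ∀ l : List G, (∀ x ∈ l, x ∈ S ∨ x⁻¹ ∈ S) →
      wordLength S' l.prod ≤ M * l.length := by
    intro l
    induction l with
    | nil =>
      intro _
      rw [List.prod_nil, wl_one]
      exact Nat.zero_le _
    | cons x l ih =>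
      intro hl
      have h1 := ih fun y hy => hl y (List.mem_cons_of_mem _ hy)
      have h2 : wordLength S' x ≤ M := by
        rcases hl x List.mem_cons_self with hx | hx
        · exact hM (Set.mem_image_of_mem _ hx)
        · have h3 := hM (Set.mem_image_of_mem _ hx)
          rwa [wl_inv hS'] at h3
      rw [List.prod_cons, List.length_cons]
      have h3 := wl_mul hS' x l.prod
      have h4 : M * (l.length + 1) = M * l.length + M := by ring
      omega
  refine ⟨M + 1, by omega, fun g => ?_⟩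
  obtain ⟨l, h1, h2, h3⟩ := wl_exists hS g
  have h4 := hlist l h2
  rw [h3, h1] at h4
  exact h4.trans (Nat.mul_le_mul_right _ (Nat.le_succ M))

/-- the slow divergence does not depend on the generating set. -/
theorem trunc_change {mu : G → ℝ} (h : IsProb mu) {S S' : Set G} (hf : S.Finite)
    (hS : Subgroup.closure S = ⊤) (hS' : Subgroup.closure S' = ⊤) :
    ∃ C : ℝ, 0 < C ∧ ∀ j, trunc S' mu j ≤ C * trunc S mu j := by
  obtain ⟨M, hM1, hM⟩ := z2b_wl hf hS hS'
  have hM0 : (1 : ℝ) ≤ (M : ℝ) := by exact_mod_cast hM1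
  refine ⟨(M : ℝ) ^ 2, by positivity, fun j => ?_⟩
  unfold trunc
  rw [← tsum_mul_left]
  refine Summable.tsum_le_tsum (fun g => ?_)
    (z2b_sum h (fun g => (wordLength S' g : ℝ)) (fun g => Nat.cast_nonneg _) j)
    ((z2b_sum h (fun g => (wordLength S g : ℝ)) (fun g => Nat.cast_nonneg _) j).mul_left _)
  have h1 : (wordLength S' g : ℝ) ≤ (M : ℝ) * (wordLength S g : ℝ) := by
    exact_mod_cast hM g
  have h2 : min (wordLength S' g : ℝ) (2 ^ j) ≤ (M : ℝ) * min (wordLength S g : ℝ) (2 ^ j) := by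
    rw [mul_min_of_nonneg _ _ (by linarith : (0 : ℝ) ≤ M)]
    refine le_min ((min_le_left _ _).trans h1) ((min_le_right _ _).trans ?_)
    have h3 : (0 : ℝ) < 2 ^ j := by positivity
    nlinarith
  have h3 : (min (wordLength S' g : ℝ) (2 ^ j)) ^ 2 ≤
      ((M : ℝ) * min (wordLength S g : ℝ) (2 ^ j)) ^ 2 :=
    pow_le_pow_left₀ (le_min (Nat.cast_nonneg _) (by positivity)) h2 2
  calc mu g * (min (wordLength S' g : ℝ) (2 ^ j)) ^ 2
      ≤ mu g * ((M : ℝ) * min (wordLength S g : ℝ) (2 ^ j)) ^ 2 :=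
        mul_le_mul_of_nonneg_left h3 (h.1 g)
    _ = (M : ℝ) ^ 2 * (mu g * (min (wordLength S g : ℝ) (2 ^ j)) ^ 2) := by ring

end Pool.Agent.H34.PW
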