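import Pool.Agent.H34.PW.Z2a
import Pool.Agent.H34.PW.Z2b

/-!
Z2: proofs in Z2a, Z2b.
-/
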