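import Pool.Agent.H34.PW.W4
import Pool.Agent.H34.PW.G2
import Pool.Agent.H34.PW.T3
import Pool.Agent.H34.PW.Y2
import Pool.Agent.H34.PW.Y4
import Pool.Agent.H34.PW.Z1
import Pool.Agent.H34.PW.Z2

/-!
Fin: the integral test on the group `GG`.
-/

namespace Pool.Agent.H34.PW

open Pool.Agent.H34.LS Pool.Agent.H34.FL Pool.Agent.H34.MI Pool.Agent.H34.CM

theorem gA_sq : gA * gA = 1 := by
  have h1 : (aX : Equiv.Perm XX) * aX = 1 := by
    have h2 : (aX)⁻¹ * aX = 1 := inv_mul_cancel aX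
    rwa [aX_inv] at h2
  exact Subtype.ext h1

theorem gB_sq : gB * gB = 1 := by
  have h1 : (bX : Equiv.Perm XX) * bX = 1 := by
    have h2 : (bX)⁻¹ * bX = 1 := inv_mul_cancel bX
    rwa [bX_inv] at h2
  exact Subtype.ext h1

instance : Nontrivial GG := by
  refine ⟨gT, 1, fun h => ?_⟩
  have h1 := hgt_T
  rw [h, map_one] at h1
  exact absurd h1 (by decide)

/-- the action on the heights. -/
noncomputable def actZ : GG →* Equiv.Perm ℤ where
  toFun g := Equiv.addRight (Multiplicative.toAdd (hgt g))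
  map_one' := by
    ext z
    simp
  map_mul' g g' := by
    ext z
    simp only [map_mul, toAdd_mul, Equiv.Perm.coe_mul, Function.comp_apply, Equiv.coe_addRight]
    ring

theorem actZ_apply (g : GG) (z : ℤ) : actZ g z = z + Multiplicative.toAdd (hgt g) := rfl

theorem slow_gS {mu : GG → ℝ} (h : IsProb mu) (hg : Generating mu) (hm : SlowMoment mu) :
    ¬ Summable fun j : ℕ => (trunc gS mu j)⁻¹ := by
  obtain ⟨S, hSf, hS, hdiv⟩ := hm
  intro hsum
  obtain ⟨C, hC, hle⟩ := trunc_change (S := S) (S' := gS) h hSf hS gS_closure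
  refine hdiv (Summable.of_nonneg_of_le (fun j => inv_nonneg.2 (trunc_pos h hg hS j).le)
    (fun j => ?_) (hsum.mul_left C))
  have h1 := trunc_pos h hg hS j
  have h2 := trunc_pos h hg gS_closure j
  rw [← div_eq_mul_inv, inv_eq_one_div, div_le_div_iff₀ h1 h2, one_mul]
  exact hle j

theorem gg_unbounded {mu : GG → ℝ} (h : IsProb mu) (hg : Generating mu) (hs : Symm mu)
    (hm : SlowMoment mu) (B : ℝ) : ∃ N, B ≤ gr actY mu (0, 0) N (0, 0) := by
  by_contra hcon
  push Not at hcon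
  obtain ⟨Bx, K, hmono, h0, hact, hK⟩ := exists_boxes
  have hB : ∀ N, gr actY mu (0, 0) N (0, 0) ≤ B := fun N => (hcon N).le
  have hB0 : 0 ≤ B := (gr_nonneg actY (0, 0) h 0 (0, 0)).trans (hB 0)
  obtain ⟨ξ, hξ, hen⟩ := tests actY h gS_closure hmono hact hK h0
    (fun j => trunc_pos h hg gS_closure j) (slow_gS h hg hm) (e := 1 / (2 * (B + 1)))
    (by positivity)
  have h1 := picone actY (0, 0) h hs hB ξ
  have h2 : (B + 1) * en actY mu ξ ≤ (B + 1) * (1 / (2 * (B + 1)) * ξ (0, 0) ^ 2) :=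
    mul_le_mul_of_nonneg_left hen (by positivity)
  have h3 : (B + 1) * (1 / (2 * (B + 1)) * ξ (0, 0) ^ 2) = ξ (0, 0) ^ 2 / 2 := by
    field_simp
  have h4 : 0 < ξ (0, 0) ^ 2 := by positivity
  linarith

theorem gg_slow {mu : GG → ℝ} (h : IsProb mu) (hg : Generating mu) (hs : Symm mu)
    (hm : SlowMoment mu) : Liouville mu := by
  intro u hu
  have hY := gg_unbounded h hg hs hm
  have hB : ∀ g x, u (g * gB * g⁻¹ * x) = u x := by
    intro g x
    refine lamp_inv actY (0, 0) h hg hs hY (actY_B _) hu (fun x => ?_) (fun g g' x hgg => ?_) g x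
    · rw [mul_assoc, gB_sq, mul_one]
    · rw [conj_B hgg]
  have hZ : ∀ B : ℝ, ∃ N, B ≤ gr actZ mu 0 N 0 := by
    intro B
    obtain ⟨N, hN⟩ := hY B
    exact ⟨N, hN.trans (gr_factor actY actZ Prod.snd
      (fun g y => by rw [actZ_apply]; exact (Prod.ext_iff.1 (actY_form g y.1 y.2)).2) h
      (0, 0) (0, 0) N)⟩
  have hA : ∀ g x, u (g * gA * g⁻¹ * x) = u x := by
    intro g x
    refine lamp_inv actZ 0 h hg hs hZ ?_ hu (fun x => ?_) (fun g g' x hgg => ?_) g x
    · rw [actZ_apply, hgt_A, add_zero]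
    · rw [mul_assoc, gA_sq, mul_one]
    · refine inv_B hB ?_
      rw [map_mul, map_mul actY (g' * gA * g'⁻¹)]
      congr 1
      refine conj_A ?_
      rw [actZ_apply, actZ_apply, zero_add, zero_add] at hgg
      exact Multiplicative.toAdd.injective hgg
  exact hgt_const h hg hu fun x x' hxx => inv_AB hA hB hxx

end Pool.Agent.H34.PW
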