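import Pool.Agent.H34.PW.W2

/-!
G1: the limit of the `gr N` if they are bounded at `y0`: `g y = (⨆ N, gr N y) + 1` (monotone, bounded by `B`: `gr_le`): `1 ≤ g ≤ B + 1`; `HasSum (mu s * g (act s y))` to `g y - 1[y = y0]`: `gr (N + 1) y = 1[y = y0] + ∑' mu s * gr N (act s y)`, limit `N → ∞` with
`tendsto_tsum_of_dominated_convergence` (bound `mu s * B`).
-/

namespace Pool.Agent.H34.PW

open Pool.Agent.H34.LS Pool.Agent.H34.FL

universe u v

variable {G : Type u} [Group G] {Y : Type v} (act : G →* Equiv.Perm Y) {mu : G → ℝ} (y0 : Y)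

theorem green (h : IsProb mu) {B : ℝ} (hB : ∀ N, gr act mu y0 N y0 ≤ B) :
    ∃ g : Y → ℝ, (∀ y, 1 ≤ g y ∧ g y ≤ B + 1) ∧
      ∀ y, HasSum (fun s => mu s * g (act s y)) (g y - Set.indicator {y0} (fun _ => (1 : ℝ)) y) := by
  have hle : ∀ (N : ℕ) (y : Y), gr act mu y0 N y ≤ B := fun N y =>
    (gr_le act y0 h N y).trans (hB N)
  have hbdd : ∀ y : Y, BddAbove (Set.range fun N => gr act mu y0 N y) := by
    intro y
    refine ⟨B, ?_⟩
    rintro _ ⟨N, rfl⟩
    exact hle N y
  have hlim : ∀ y : Y, Filter.Tendsto (fun N => gr act mu y0 N y) Filter.atTop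
      (nhds (⨆ N, gr act mu y0 N y)) := fun y =>
    tendsto_atTop_ciSup (fun m n hmn => gr_mono act y0 h hmn y) (hbdd y)
  have hl0 : ∀ y : Y, 0 ≤ ⨆ N, gr act mu y0 N y := fun y =>
    le_ciSup_of_le (hbdd y) 0 (gr_nonneg act y0 h 0 y)
  have hl1 : ∀ y : Y, ⨆ N, gr act mu y0 N y ≤ B := fun y => ciSup_le fun N => hle N y
  refine ⟨fun y => (⨆ N, gr act mu y0 N y) + 1, fun y => ⟨?_, ?_⟩, fun y => ?_⟩
  · have := hl0 y
    linarith
  · have := hl1 y
    linarith
  · have hsum : Summable fun s => mu s * ⨆ N, gr act mu y0 N (act s y) :=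
      Summable.of_nonneg_of_le (fun s => mul_nonneg (h.1 s) (hl0 _))
        (fun s => mul_le_mul_of_nonneg_left (hl1 _) (h.1 s)) (h.2.summable.mul_right B)
    have ht : Filter.Tendsto (fun N => ∑' s, mu s * gr act mu y0 N (act s y)) Filter.atTop
        (nhds (∑' s, mu s * ⨆ N, gr act mu y0 N (act s y))) := by
      refine tendsto_tsum_of_dominated_convergence (bound := fun s => mu s * B)
        (h.2.summable.mul_right B) (fun s => (hlim (act s y)).const_mul (mu s))
        (Filter.Eventually.of_forall fun N s => ?_)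
      rw [Real.norm_of_nonneg (mul_nonneg (h.1 s) (gr_nonneg act y0 h N _))]
      exact mul_le_mul_of_nonneg_left (hle N _) (h.1 s)
    have h1 : Filter.Tendsto (fun N => gr act mu y0 (N + 1) y) Filter.atTop
        (nhds (⨆ N, gr act mu y0 N y)) := (Filter.tendsto_add_atTop_iff_nat 1).2 (hlim y)
    have h2 : Filter.Tendsto (fun N => gr act mu y0 (N + 1) y) Filter.atTop
        (nhds (Set.indicator {y0} (fun _ => (1 : ℝ)) y +
          ∑' s, mu s * ⨆ N, gr act mu y0 N (act s y))) :=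
      ht.const_add (Set.indicator {y0} (fun _ => (1 : ℝ)) y)
    have h3 := tendsto_nhds_unique h1 h2
    have h4 := hsum.hasSum.add h.2
    have h5 : (fun s => mu s * ((⨆ N, gr act mu y0 N (act s y)) + 1)) =
        fun s => mu s * (⨆ N, gr act mu y0 N (act s y)) + mu s := by
      funext s
      ring
    have h6 : (⨆ N, gr act mu y0 N y) + 1 - Set.indicator {y0} (fun _ => (1 : ℝ)) y =
        (∑' s, mu s * ⨆ N, gr act mu y0 N (act s y)) + 1 := by
      rw [h3]
      ring
    show HasSum (fun s => mu s * ((⨆ N, gr act mu y0 N (act s y)) + 1))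
      ((⨆ N, gr act mu y0 N y) + 1 - Set.indicator {y0} (fun _ => (1 : ℝ)) y)
    rw [h5, h6]
    exact h4

end Pool.Agent.H34.PW
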