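import Pool.Agent.H34.PW.Defs
import Pool.Agent.H34.LS.W1

/-!
T1b: the cut-off functions. `Bx` an increasing sequence of finite subsets of `Y`. `phi Bx j y = 2^(-j) * #{n : 2^j ≤ n < 2^(j+1), y ∈ Bx n}`. `mem_of_wl`: induction over a word of minimal length (`wl_exists`). `phi_lip`: with `r = wordLength S g`: if `y ∈ Bx n`, then `act g y ∈ Bx (n + r)`, and if `act g y ∈ Bx n`, then
`y ∈ Bx (n + r)` (`g⁻¹`, `wl_inv`); the number of `n` in `[a, a + L)` with `z ∈ Bx (n + r)` exceeds the number of `n` in `[a, a + L)` with `z ∈ Bx n` by at most `r` (shift of the interval). `phi_lip` is symmetric in `y` and `act g y`; the bound `1` is `0 ≤ phi ≤ 1`.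
-/

namespace Pool.Agent.H34.PW

open Pool.Agent.H34.LS Pool.Agent.H34.FL

universe u v

variable {G : Type u} [Group G] {Y : Type v}

theorem mem_of_wl (act : G →* Equiv.Perm Y) {S : Set G} (hS : Subgroup.closure S = ⊤)
    {Bx : ℕ → Finset Y}
    (hact : ∀ s ∈ S, ∀ n, ∀ y ∈ Bx n, act s y ∈ Bx (n + 1) ∧ act s⁻¹ y ∈ Bx (n + 1))
    (g : G) {n : ℕ} {y : Y} (hy : y ∈ Bx n) : act g y ∈ Bx (n + wordLength S g) := by
  obtain ⟨l, hl, hs, hp⟩ := wl_exists hS g
  rw [← hl, ← hp]
  clear hl hp
  induction l with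
  | nil => simpa using hy
  | cons a t ih =>
    have h1 := ih (fun x hx => hs x (List.mem_cons_of_mem a hx))
    have h2 : act (a :: t).prod y = act a (act t.prod y) := by
      rw [List.prod_cons, map_mul, Equiv.Perm.mul_apply]
    rw [h2, List.length_cons, ← add_assoc]
    rcases hs a List.mem_cons_self with h3 | h3
    · exact (hact a h3 _ _ h1).1
    · have h4 := (hact a⁻¹ h3 _ _ h1).2
      rwa [inv_inv] at h4

end Pool.Agent.H34.PW
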