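import Pool.Agent.H34.PW.T1a
import Pool.Agent.H34.PW.T1b
import Pool.Agent.H34.LS.W1

/-!
T1c: the cut-off functions. `Bx` an increasing sequence of finite subsets of `Y`. `phi Bx j y = 2^(-j) * #{n : 2^j ≤ n < 2^(j+1), y ∈ Bx n}`. `mem_of_wl`: induction over a word of minimal length (`wl_exists`). `phi_lip`: with `r = wordLength S g`: if `y ∈ Bx n`, then `act g y ∈ Bx (n + r)`, and if `act g y ∈ Bx n`, then
`y ∈ Bx (n + r)` (`g⁻¹`, `wl_inv`); the number of `n` in `[a, a + L)` with `z ∈ Bx (n + r)` exceeds the number of `n` in `[a, a + L)` with `z ∈ Bx n` by at most `r` (shift of the interval). `phi_lip` is symmetric in `y` and `act g y`; the bound `1` is `0 ≤ phi ≤ 1`.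
-/

namespace Pool.Agent.H34.PW

open Pool.Agent.H34.LS Pool.Agent.H34.FL

universe u v

variable {G : Type u} [Group G] {Y : Type v}

private theorem t1c_shift {Bx : ℕ → Finset Y} (j r : ℕ) (z w : Y)
    (h : ∀ n, z ∈ Bx n → w ∈ Bx (n + r)) :
    ∑ n ∈ Finset.Ico (2 ^ j) (2 ^ (j + 1)), Set.indicator (Bx n : Set Y) (fun _ => (1 : ℝ)) z ≤
      ∑ n ∈ Finset.Ico (2 ^ j) (2 ^ (j + 1)),
        Set.indicator (Bx n : Set Y) (fun _ => (1 : ℝ)) w + r := by
  have hab : 2 ^ j ≤ 2 ^ (j + 1) := Nat.pow_le_pow_right (by norm_num) (Nat.le_succ j)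
  generalize 2 ^ j = a at *
  generalize 2 ^ (j + 1) = b at *
  have h0 : ∀ n : ℕ, ∀ x : Y, 0 ≤ Set.indicator (Bx n : Set Y) (fun _ => (1 : ℝ)) x := fun n x =>
    Set.indicator_nonneg (fun _ _ => zero_le_one) x
  have h1 : ∀ n : ℕ, ∀ x : Y, Set.indicator (Bx n : Set Y) (fun _ => (1 : ℝ)) x ≤ 1 := fun n x =>
    Set.indicator_le_self' (fun _ _ => zero_le_one) x
  calc ∑ n ∈ Finset.Ico a b, Set.indicator (Bx n : Set Y) (fun _ => (1 : ℝ)) z
      ≤ ∑ n ∈ Finset.Ico a b, Set.indicator (Bx (n + r) : Set Y) (fun _ => (1 : ℝ)) w := by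
        refine Finset.sum_le_sum fun n _ => ?_
        by_cases hz : z ∈ Bx n
        · rw [Set.indicator_of_mem (Finset.mem_coe.2 (h n hz)),
            Set.indicator_of_mem (Finset.mem_coe.2 hz)]
        · rw [Set.indicator_of_notMem (fun h' => hz (Finset.mem_coe.1 h'))]
          exact h0 _ _
    _ = ∑ n ∈ Finset.Ico (a + r) (b + r),
          Set.indicator (Bx n : Set Y) (fun _ => (1 : ℝ)) w :=
        Finset.sum_Ico_add' (fun n => Set.indicator (Bx n : Set Y) (fun _ => (1 : ℝ)) w) a b r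
    _ ≤ ∑ n ∈ Finset.Ico a (b + r), Set.indicator (Bx n : Set Y) (fun _ => (1 : ℝ)) w := by
        refine Finset.sum_le_sum_of_subset_of_nonneg ?_ fun n _ _ => h0 n w
        exact Finset.Ico_subset_Ico (Nat.le_add_right a r) le_rfl
    _ = ∑ n ∈ Finset.Ico a b, Set.indicator (Bx n : Set Y) (fun _ => (1 : ℝ)) w +
          ∑ n ∈ Finset.Ico b (b + r), Set.indicator (Bx n : Set Y) (fun _ => (1 : ℝ)) w :=
        (Finset.sum_Ico_consecutive _ hab (Nat.le_add_right b r)).symm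
    _ ≤ ∑ n ∈ Finset.Ico a b, Set.indicator (Bx n : Set Y) (fun _ => (1 : ℝ)) w + r := by
        have h2 : ∑ n ∈ Finset.Ico b (b + r),
            Set.indicator (Bx n : Set Y) (fun _ => (1 : ℝ)) w ≤ r := by
          refine (Finset.sum_le_sum fun n _ => h1 n w).trans ?_
          rw [Finset.sum_const, Nat.card_Ico, nsmul_eq_mul, mul_one, Nat.add_sub_cancel_left]
        linarith

theorem phi_lip (act : G →* Equiv.Perm Y) {S : Set G} (hS : Subgroup.closure S = ⊤)
    {Bx : ℕ → Finset Y} (hm : Monotone Bx)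
    (hact : ∀ s ∈ S, ∀ n, ∀ y ∈ Bx n, act s y ∈ Bx (n + 1) ∧ act s⁻¹ y ∈ Bx (n + 1))
    (g : G) (j : ℕ) (y : Y) :
    |phi Bx j y - phi Bx j (act g y)| ≤ min (wordLength S g : ℝ) (2 ^ j) / 2 ^ j := by
  have hp : (0 : ℝ) < 2 ^ j := by positivity
  have h1 := t1c_shift (Bx := Bx) j (wordLength S g) y (act g y)
    fun n hn => mem_of_wl act hS hact g hn
  have h2 := t1c_shift (Bx := Bx) j (wordLength S g) (act g y) y fun n hn => by
    have h := mem_of_wl act hS hact g⁻¹ hn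
    have h3 : act g⁻¹ (act g y) = y := by
      rw [map_inv]
      exact (act g).symm_apply_apply y
    rwa [wl_inv hS g, h3] at h
  have a1 := phi_nonneg Bx j y
  have a2 := phi_nonneg Bx j (act g y)
  have a3 := phi_le_one Bx j y
  have a4 := phi_le_one Bx j (act g y)
  rw [le_div_iff₀ hp, le_min_iff]
  constructor
  · have e : |phi Bx j y - phi Bx j (act g y)| * 2 ^ j =
        |phi Bx j y * 2 ^ j - phi Bx j (act g y) * 2 ^ j| := by
      rw [← sub_mul, abs_mul, abs_of_pos hp]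
    rw [e]
    unfold phi
    rw [div_mul_cancel₀ _ hp.ne', div_mul_cancel₀ _ hp.ne', abs_le]
    constructor <;> linarith
  · have h3 : |phi Bx j y - phi Bx j (act g y)| ≤ 1 := by
      rw [abs_le]
      constructor <;> linarith
    calc |phi Bx j y - phi Bx j (act g y)| * 2 ^ j ≤ 1 * 2 ^ j :=
          mul_le_mul_of_nonneg_right h3 hp.le
      _ = 2 ^ j := one_mul _

end Pool.Agent.H34.PW
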