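import Pool.Agent.H34.PW.Defs
import Pool.Agent.H34.LS.W1

/-!
T1a: the cut-off functions. `Bx` an increasing sequence of finite subsets of `Y`. `phi Bx j y = 2^(-j) * #{n : 2^j ≤ n < 2^(j+1), y ∈ Bx n}`. `mem_of_wl`: induction over a word of minimal length (`wl_exists`). `phi_lip`: with `r = wordLength S g`: if `y ∈ Bx n`, then `act g y ∈ Bx (n + r)`, and if `act g y ∈ Bx n`, then
`y ∈ Bx (n + r)` (`g⁻¹`, `wl_inv`); the number of `n` in `[a, a + L)` with `z ∈ Bx (n + r)` exceeds the number of `n` in `[a, a + L)` with `z ∈ Bx n` by at most `r` (shift of the interval). `phi_lip` is symmetric in `y` and `act g y`; the bound `1` is `0 ≤ phi ≤ 1`.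
-/

namespace Pool.Agent.H34.PW

open Pool.Agent.H34.LS Pool.Agent.H34.FL

universe u v

variable {G : Type u} [Group G] {Y : Type v}

private theorem t1a_sum_one (j : ℕ) :
    ∑ _n ∈ Finset.Ico (2 ^ j) (2 ^ (j + 1)), (1 : ℝ) = 2 ^ j := by
  have h : 2 ^ (j + 1) - 2 ^ j = 2 ^ j := by
    rw [pow_succ]
    omega
  rw [Finset.sum_const, Nat.card_Ico, h, nsmul_eq_mul, mul_one]
  push_cast
  rfl

theorem phi_nonneg (Bx : ℕ → Finset Y) (j : ℕ) (y : Y) : 0 ≤ phi Bx j y := by
  unfold phi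
  refine div_nonneg (Finset.sum_nonneg fun n _ => ?_) (by positivity)
  exact Set.indicator_nonneg (fun _ _ => zero_le_one) y

theorem phi_le_one (Bx : ℕ → Finset Y) (j : ℕ) (y : Y) : phi Bx j y ≤ 1 := by
  unfold phi
  rw [div_le_one (by positivity), ← t1a_sum_one j]
  refine Finset.sum_le_sum fun n _ => ?_
  exact Set.indicator_le_self' (fun _ _ => zero_le_one) y

theorem phi_eq_one {Bx : ℕ → Finset Y} (hm : Monotone Bx) {y : Y} (hy : y ∈ Bx 0) (j : ℕ) :
    phi Bx j y = 1 := by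
  have h : ∀ n, Set.indicator (Bx n : Set Y) (fun _ => (1 : ℝ)) y = 1 := fun n =>
    Set.indicator_of_mem (Finset.mem_coe.2 (hm (Nat.zero_le n) hy)) _
  unfold phi
  simp only [h]
  rw [t1a_sum_one]
  exact div_self (by positivity)

theorem phi_mem {Bx : ℕ → Finset Y} (hm : Monotone Bx) {j : ℕ} {y : Y} (hy : phi Bx j y ≠ 0) :
    y ∈ Bx (2 ^ (j + 1)) := by
  by_contra hn
  apply hy
  unfold phi
  rw [Finset.sum_eq_zero, zero_div]
  intro n hn'
  refine Set.indicator_of_notMem (fun h => hn ?_) _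
  exact hm (Finset.mem_Ico.1 hn').2.le (Finset.mem_coe.1 h)

end Pool.Agent.H34.PW
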