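import Pool.Agent.H34.PW.T1

/-!
T2: pairs of scales. `D_i y = phi i y - phi i (act s y)` vanishes unless `y ∈ Bx (2^(i+1))` or `act s y ∈ Bx (2^(i+1))`: at most `2 * card (Bx (2^(i+1)))` points `y` (the second set is the preimage under the permutation `act s`); `|D_i| ≤ min |s| 2^i / 2^i`, `|D_j| ≤ min |s| 2^j / 2^j` (`phi_lip`).
`pair_sum`: `|∑' y, D_i y * D_j y| ≤ 2 * card * (min |s| 2^i / 2^i) * (min |s| 2^j / 2^j)`, `card ≤ K (2^(i+1) + 1)^2 ≤ 9 K 4^i`, `min |s| 2^i ≤ min |s| 2^j` for `i ≤ j`.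
-/

namespace Pool.Agent.H34.PW

open Pool.Agent.H34.LS Pool.Agent.H34.FL

universe u v

variable {G : Type u} [Group G] {Y : Type v}

theorem pair_sum (act : G →* Equiv.Perm Y) {S : Set G} (hS : Subgroup.closure S = ⊤)
    {Bx : ℕ → Finset Y} (hm : Monotone Bx)
    (hact : ∀ s ∈ S, ∀ n, ∀ y ∈ Bx n, act s y ∈ Bx (n + 1) ∧ act s⁻¹ y ∈ Bx (n + 1))
    {K : ℕ} (hK : ∀ n, (Bx n).card ≤ K * (n + 1) ^ 2) (s : G) {i j : ℕ} (hij : i ≤ j) :
    (Function.support fun y => (phi Bx i y - phi Bx i (act s y)) *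
        (phi Bx j y - phi Bx j (act s y))).Finite ∧
      |∑' y, (phi Bx i y - phi Bx i (act s y)) * (phi Bx j y - phi Bx j (act s y))| ≤
        18 * K * ((2 : ℝ) ^ i / 2 ^ j) * (min (wordLength S s : ℝ) (2 ^ j)) ^ 2 := by
  classical
  obtain ⟨B, hB⟩ : ∃ B : Finset Y, B = Bx (2 ^ (i + 1)) := ⟨_, rfl⟩
  obtain ⟨T, hT⟩ : ∃ T : Finset Y, T = B ∪ B.map (act s).symm.toEmbedding := ⟨_, rfl⟩
  have hz : ∀ y, y ∉ T → (phi Bx i y - phi Bx i (act s y)) *
      (phi Bx j y - phi Bx j (act s y)) = 0 := by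
    intro y hy
    rw [hT, Finset.mem_union, not_or] at hy
    have h1 : phi Bx i y = 0 := by
      by_contra hne
      exact hy.1 (hB ▸ phi_mem hm hne)
    have h2 : phi Bx i (act s y) = 0 := by
      by_contra hne
      apply hy.2
      rw [Finset.mem_map]
      exact ⟨act s y, hB ▸ phi_mem hm hne, (act s).symm_apply_apply y⟩
    rw [h1, h2, sub_zero, zero_mul]
  have hcT : (T.card : ℝ) ≤ 2 * (K * (9 * (2 ^ i * 2 ^ i))) := by
    have h1 : T.card ≤ 2 * B.card := by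
      rw [hT, two_mul]
      refine (Finset.card_union_le _ _).trans ?_
      rw [Finset.card_map]
    have h2 : B.card ≤ K * (9 * (2 ^ i * 2 ^ i)) := by
      rw [hB]
      refine (hK _).trans (Nat.mul_le_mul_left K ?_)
      have h3 : 2 ^ (i + 1) + 1 ≤ 3 * 2 ^ i := by
        have := Nat.one_le_two_pow (n := i)
        rw [pow_succ]
        omega
      calc (2 ^ (i + 1) + 1) ^ 2 ≤ (3 * 2 ^ i) ^ 2 := Nat.pow_le_pow_left h3 2
        _ = 9 * (2 ^ i * 2 ^ i) := by ring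
    exact_mod_cast h1.trans (Nat.mul_le_mul_left 2 h2)
  obtain ⟨m, hmm⟩ : ∃ m : ℝ, m = min (wordLength S s : ℝ) (2 ^ j) := ⟨_, rfl⟩
  have hm0 : 0 ≤ m := by
    rw [hmm]
    exact le_min (Nat.cast_nonneg _) (by positivity)
  have hi : (0 : ℝ) < 2 ^ i := by positivity
  have hj : (0 : ℝ) < 2 ^ j := by positivity
  have hmi : min (wordLength S s : ℝ) (2 ^ i) ≤ m := by
    rw [hmm]
    exact min_le_min_left _ (pow_le_pow_right₀ (by norm_num) hij)
  have hb : ∀ y, |(phi Bx i y - phi Bx i (act s y)) * (phi Bx j y - phi Bx j (act s y))| ≤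
      m / 2 ^ i * (m / 2 ^ j) := by
    intro y
    rw [abs_mul]
    refine mul_le_mul ?_ ?_ (abs_nonneg _) (by positivity)
    · refine (phi_lip act hS hm hact s i y).trans ?_
      exact div_le_div_of_nonneg_right hmi hi.le
    · rw [hmm]
      exact phi_lip act hS hm hact s j y
  constructor
  · refine T.finite_toSet.subset fun y hy => ?_
    by_contra hn
    exact hy (hz y (fun h => hn (Finset.mem_coe.2 h)))
  · rw [tsum_eq_sum (s := T) fun y hy => hz y hy]
    refine (Finset.abs_sum_le_sum_abs _ _).trans ?_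
    refine (Finset.sum_le_sum fun y _ => hb y).trans ?_
    rw [Finset.sum_const, nsmul_eq_mul, ← hmm]
    calc (T.card : ℝ) * (m / 2 ^ i * (m / 2 ^ j))
        ≤ 2 * (K * (9 * (2 ^ i * 2 ^ i))) * (m / 2 ^ i * (m / 2 ^ j)) :=
          mul_le_mul_of_nonneg_right hcT (by positivity)
      _ = 18 * K * ((2 : ℝ) ^ i / 2 ^ j) * m ^ 2 := by
          field_simp
          ring

end Pool.Agent.H34.PW
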