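import Pool.Agent.H34.PW.W2a

/-!
W2b: `0 ≤ gr N z ≤ N` by induction, so all sums converge; `gr_mono`: enough `gr N z ≤ gr (N + 1) z`, by induction on `N` (`avg` is monotone). `gr_le`: for `n ≤ N`: `gr n z ≤ gr N y0`, by induction on `n`: `z = y0`: `gr_mono`; `z ≠ y0`: `gr (n + 1) z = avg (gr n) z ≤ gr N y0`
since `∑ mu = 1`. `gr_defect`: for `s` with `mu s > 0` and `d N z = gr N y0 - gr N z ≥ 0`: `gr N z ≤ gr (N + 1) z ≤ 1 + ∑' mu t * gr N (act t z) ≤ 1 + gr N y0 - mu s * d N (act s z)`, so `d N (act s z) ≤ (1 + d N z) / mu s`;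
induction over `x` (`Submonoid.closure_induction`) of: for all `z`, if `d N z` is bounded in `N`, then so is `d N (act x z)`; start with `z = y0`, `d N y0 = 0`.
-/

namespace Pool.Agent.H34.PW

open Pool.Agent.H34.LS Pool.Agent.H34.FL

universe u v

variable {G : Type u} [Group G] {Y : Type v} (act : G →* Equiv.Perm Y) {mu : G → ℝ} (y0 : Y)

theorem gr_defect (h : IsProb mu) (hg : Generating mu) (x : G) :
    ∃ C : ℝ, ∀ N : ℕ, gr act mu y0 N y0 - gr act mu y0 N (act x y0) ≤ C := by
  have key : ∀ x : G, x ∈ Submonoid.closure (Function.support mu) → ∀ z : Y,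
      (∃ C : ℝ, ∀ N : ℕ, gr act mu y0 N y0 - gr act mu y0 N z ≤ C) →
      ∃ C : ℝ, ∀ N : ℕ, gr act mu y0 N y0 - gr act mu y0 N (act x z) ≤ C := by
    intro x hx
    induction hx using Submonoid.closure_induction with
    | mem s hs =>
      rintro z ⟨C, hC⟩
      have hs' : 0 < mu s := lt_of_le_of_ne (h.1 s) (Ne.symm hs)
      refine ⟨(1 + C) / mu s, fun N => ?_⟩
      rw [le_div_iff₀ hs']
      have h1 : gr act mu y0 N z ≤ gr act mu y0 (N + 1) z := gr_mono act y0 h (Nat.le_succ N) z
      have hi : Set.indicator ({y0} : Set Y) (fun _ => (1 : ℝ)) z ≤ 1 := by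
        by_cases hz : z ∈ ({y0} : Set Y)
        · rw [Set.indicator_of_mem hz]
        · rw [Set.indicator_of_notMem hz]; exact zero_le_one
      have h2 : gr act mu y0 (N + 1) z ≤ 1 + ∑' t, mu t * gr act mu y0 N (act t z) := by
        have e : gr act mu y0 (N + 1) z = Set.indicator ({y0} : Set Y) (fun _ => (1 : ℝ)) z
            + ∑' t, mu t * gr act mu y0 N (act t z) := rfl
        rw [e]
        exact add_le_add hi le_rfl
      have hs1 : HasSum (fun t => mu t * gr act mu y0 N y0) (gr act mu y0 N y0) := by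
        have := h.2.mul_right (gr act mu y0 N y0)
        rwa [one_mul] at this
      have hs2 : HasSum (fun t => mu t * gr act mu y0 N (act t z))
          (∑' t, mu t * gr act mu y0 N (act t z)) := (gr_summable act y0 h N z).hasSum
      have hs3 : HasSum (fun t => mu t * gr act mu y0 N y0 - mu t * gr act mu y0 N (act t z))
          (gr act mu y0 N y0 - ∑' t, mu t * gr act mu y0 N (act t z)) := hs1.sub hs2
      have h3 : mu s * gr act mu y0 N y0 - mu s * gr act mu y0 N (act s z)
          ≤ gr act mu y0 N y0 - ∑' t, mu t * gr act mu y0 N (act t z) := by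
        refine le_hasSum hs3 s (fun t _ => ?_)
        rw [← mul_sub]
        exact mul_nonneg (h.1 t) (sub_nonneg.2 (gr_le act y0 h N _))
      have h4 := hC N
      have h5 : (gr act mu y0 N y0 - gr act mu y0 N (act s z)) * mu s
          = mu s * gr act mu y0 N y0 - mu s * gr act mu y0 N (act s z) := by ring
      rw [h5]
      linarith
    | one =>
      intro z hz
      have e : act 1 z = z := by rw [map_one]; rfl
      rw [e]
      exact hz
    | mul a b _ _ ha hb =>
      intro z hz
      have e : act (a * b) z = act a (act b z) := by rw [map_mul]; rfl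
      rw [e]
      exact ha (act b z) (hb z hz)
  have hx : x ∈ Submonoid.closure (Function.support mu) := by
    have hg' : Submonoid.closure (Function.support mu) = ⊤ := hg
    rw [hg']
    exact Submonoid.mem_top x
  exact key x hx y0 ⟨0, fun N => le_of_eq (sub_self _)⟩

end Pool.Agent.H34.PW
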