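import Pool.Agent.H34.PW.W2a
import Pool.Agent.H34.PW.W2b

/-!
W2: proofs in W2a, W2b.
-/
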