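import Pool.Agent.H34.PW.Defs

/-!
W2a: `0 ≤ gr N z ≤ N` by induction, so all sums converge; `gr_mono`: enough `gr N z ≤ gr (N + 1) z`, by induction on `N` (`avg` is monotone). `gr_le`: for `n ≤ N`: `gr n z ≤ gr N y0`, by induction on `n`: `z = y0`: `gr_mono`; `z ≠ y0`: `gr (n + 1) z = avg (gr n) z ≤ gr N y0`
since `∑ mu = 1`. `gr_defect`: for `s` with `mu s > 0` and `d N z = gr N y0 - gr N z ≥ 0`: `gr N z ≤ gr (N + 1) z ≤ 1 + ∑' mu t * gr N (act t z) ≤ 1 + gr N y0 - mu s * d N (act s z)`, so `d N (act s z) ≤ (1 + d N z) / mu s`;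
induction over `x` (`Submonoid.closure_induction`) of: for all `z`, if `d N z` is bounded in `N`, then so is `d N (act x z)`; start with `z = y0`, `d N y0 = 0`.
-/

namespace Pool.Agent.H34.PW

open Pool.Agent.H34.LS Pool.Agent.H34.FL

universe u v

variable {G : Type u} [Group G] {Y : Type v} (act : G →* Equiv.Perm Y) {mu : G → ℝ} (y0 : Y)

private theorem w2a_avg (h : IsProb mu) {g : Y → ℝ} {C : ℝ} (h0 : ∀ z, 0 ≤ g z)
    (h1 : ∀ z, g z ≤ C) (z : Y) :
    (Summable fun s => mu s * g (act s z)) ∧ 0 ≤ avg act mu g z ∧ avg act mu g z ≤ C := by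
  have hs : Summable fun s => mu s * g (act s z) :=
    Summable.of_nonneg_of_le (fun s => mul_nonneg (h.1 s) (h0 _))
      (fun s => mul_le_mul_of_nonneg_left (h1 _) (h.1 s)) (h.2.summable.mul_right C)
  refine ⟨hs, tsum_nonneg fun s => mul_nonneg (h.1 s) (h0 _), ?_⟩
  have h2 := hs.tsum_le_tsum (fun s => mul_le_mul_of_nonneg_left (h1 (act s z)) (h.1 s))
    (h.2.summable.mul_right C)
  rw [tsum_mul_right, h.2.tsum_eq, one_mul] at h2
  exact h2

private theorem w2a_bd (h : IsProb mu) (N : ℕ) :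
    ∀ z : Y, 0 ≤ gr act mu y0 N z ∧ gr act mu y0 N z ≤ N := by
  induction N with
  | zero =>
    intro z
    exact ⟨le_rfl, by rw [Nat.cast_zero]; exact le_rfl⟩
  | succ N ih =>
    intro z
    obtain ⟨-, h1, h2⟩ := w2a_avg act h (fun z => (ih z).1) (fun z => (ih z).2) z
    have h3 : 0 ≤ Set.indicator {y0} (fun _ => (1 : ℝ)) z :=
      Set.indicator_nonneg (fun _ _ => zero_le_one) z
    have h4 : Set.indicator {y0} (fun _ => (1 : ℝ)) z ≤ 1 :=
      Set.indicator_apply_le' (fun _ => le_rfl) (fun _ => zero_le_one)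
    constructor
    · exact add_nonneg h3 h1
    · have h5 : gr act mu y0 (N + 1) z =
        Set.indicator {y0} (fun _ => (1 : ℝ)) z + avg act mu (gr act mu y0 N) z := rfl
      rw [h5]
      push_cast
      linarith

theorem gr_nonneg (h : IsProb mu) (N : ℕ) (z : Y) : 0 ≤ gr act mu y0 N z :=
  (w2a_bd act y0 h N z).1

theorem gr_le_nat (h : IsProb mu) (N : ℕ) (z : Y) : gr act mu y0 N z ≤ N :=
  (w2a_bd act y0 h N z).2

theorem gr_summable (h : IsProb mu) (N : ℕ) (z : Y) :
    Summable fun s => mu s * gr act mu y0 N (act s z) :=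
  (w2a_avg act h (gr_nonneg act y0 h N) (gr_le_nat act y0 h N) z).1

private theorem w2a_step (h : IsProb mu) (N : ℕ) :
    ∀ z : Y, gr act mu y0 N z ≤ gr act mu y0 (N + 1) z := by
  induction N with
  | zero =>
    intro z
    exact gr_nonneg act y0 h 1 z
  | succ N ih =>
    intro z
    have h1 := (gr_summable act y0 h N z).tsum_le_tsum
      (fun s => mul_le_mul_of_nonneg_left (ih (act s z)) (h.1 s)) (gr_summable act y0 h (N + 1) z)
    exact add_le_add le_rfl h1

theorem gr_mono (h : IsProb mu) {m n : ℕ} (hmn : m ≤ n) (z : Y) :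
    gr act mu y0 m z ≤ gr act mu y0 n z :=
  monotone_nat_of_le_succ (f := fun N => gr act mu y0 N z) (fun N => w2a_step act y0 h N z) hmn

private theorem w2a_le (h : IsProb mu) (N n : ℕ) :
    n ≤ N → ∀ z : Y, gr act mu y0 n z ≤ gr act mu y0 N y0 := by
  induction n with
  | zero =>
    intro _ z
    exact gr_nonneg act y0 h N y0
  | succ n ih =>
    intro hn z
    by_cases hz : z = y0
    · rw [hz]
      exact gr_mono act y0 h hn y0
    · have h1 := (w2a_avg act h (gr_nonneg act y0 h n) (ih (by omega)) z).2.2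
      have h2 : Set.indicator {y0} (fun _ => (1 : ℝ)) z = 0 :=
        Set.indicator_of_notMem (mt Set.mem_singleton_iff.1 hz) _
      have h5 : gr act mu y0 (n + 1) z =
        Set.indicator {y0} (fun _ => (1 : ℝ)) z + avg act mu (gr act mu y0 n) z := rfl
      rw [h5, h2, zero_add]
      exact h1

theorem gr_le (h : IsProb mu) (N : ℕ) (z : Y) : gr act mu y0 N z ≤ gr act mu y0 N y0 :=
  w2a_le act y0 h N N le_rfl z

end Pool.Agent.H34.PW
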