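import Pool.Agent.H34.PW.W2

/-!
W3: hitting. For `n ≤ N` and all `x`: `η * gr n (act x⁻¹ (act g y0)) ≤ w x * gr N y0`, by induction on `n` with `y = act g y0`. If `act x y0 = y`: `act x⁻¹ y = y0`, `gr (n+1) y0 ≤ gr N y0`, `η ≤ w x`. If not: the indicator is `0` and
`gr (n + 1) (act x⁻¹ y) = ∑' s, mu s * gr n (act s (act x⁻¹ y)) = ∑' s, mu s * gr n (act (x s)⁻¹ y)` (substitute `s⁻¹` for `s`: `Equiv.inv`, `hs : Symm mu`), and `η * mu s * gr n (act (x s)⁻¹ y) ≤ mu s * w (x s) * gr N y0`, summed with `hh`.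
Then with `gr_defect` for `x⁻¹ * g`: `η * (gr N y0 - C) ≤ η * gr N (act (x⁻¹ g) y0) ≤ w x * gr N y0` for all `N`, and `gr N y0` is unbounded: `η ≤ w x`.
-/

namespace Pool.Agent.H34.PW

open Pool.Agent.H34.LS Pool.Agent.H34.FL

universe u v

variable {G : Type u} [Group G] {Y : Type v} (act : G →* Equiv.Perm Y) {mu : G → ℝ} (y0 : Y)

private theorem w3_mul (a b : G) (y : Y) : act a (act b y) = act (a * b) y := by
  rw [map_mul, Equiv.Perm.mul_apply]

private theorem w3_can (a : G) (y : Y) : act a (act a⁻¹ y) = y := by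
  rw [w3_mul, mul_inv_cancel, map_one, Equiv.Perm.one_apply]

private theorem w3_can' (a : G) (y : Y) : act a⁻¹ (act a y) = y := by
  rw [w3_mul, inv_mul_cancel, map_one, Equiv.Perm.one_apply]

private theorem w3_step (h : IsProb mu) (hs : Symm mu) {w : G → ℝ} (hw : ∀ x, 0 ≤ w x)
    (hh : ∀ x, HasSum (fun s => mu s * w (x * s)) (w x)) {η : ℝ} (hη : 0 ≤ η) (g : G)
    (hA : ∀ x, act x y0 = act g y0 → η ≤ w x) (N n : ℕ) (hn : n ≤ N) :
    ∀ x, η * gr act mu y0 n (act x⁻¹ (act g y0)) ≤ w x * gr act mu y0 N y0 := by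
  have hN0 := gr_nonneg act y0 h N y0
  induction n with
  | zero =>
    intro x
    have e : gr act mu y0 0 (act x⁻¹ (act g y0)) = 0 := rfl
    rw [e, mul_zero]
    exact mul_nonneg (hw x) hN0
  | succ n ih =>
    have ih' := ih (Nat.le_of_succ_le hn)
    intro x
    by_cases hx : act x y0 = act g y0
    · have hz : act x⁻¹ (act g y0) = y0 := by
        rw [← hx, w3_can']
      rw [hz]
      exact mul_le_mul (hA x hx) (gr_mono act y0 h hn y0) (gr_nonneg act y0 h _ y0) (hw x)
    · set z := act x⁻¹ (act g y0) with hz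
      have hne : z ≠ y0 := by
        intro hc
        apply hx
        have h2 := w3_can act x (act g y0)
        rw [← hz, hc] at h2
        exact h2
      have e1 : gr act mu y0 (n + 1) z = ∑' s, mu s * gr act mu y0 n (act s z) := by
        show Set.indicator {y0} (fun _ => (1 : ℝ)) z + avg act mu (gr act mu y0 n) z = _
        rw [Set.indicator_of_notMem (by simpa using hne), zero_add]
        rfl
      have hsum := (gr_summable act y0 h n z).hasSum
      have hsum2 : HasSum (fun s => mu s * gr act mu y0 n (act (x * s)⁻¹ (act g y0)))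
          (gr act mu y0 (n + 1) z) := by
        rw [e1]
        have h3 := (Equiv.inv G).hasSum_iff.2 hsum
        refine h3.congr_fun ?_
        intro s
        show mu s * gr act mu y0 n (act (x * s)⁻¹ (act g y0)) =
          mu s⁻¹ * gr act mu y0 n (act s⁻¹ z)
        rw [hs s, hz, mul_inv_rev, ← w3_mul act s⁻¹ x⁻¹]
      have h4 := hsum2.mul_left η
      have h5 := (hh x).mul_right (gr act mu y0 N y0)
      refine hasSum_le (fun s => ?_) h4 h5
      have h6 := mul_le_mul_of_nonneg_left (ih' (x * s)) (h.1 s)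
      calc η * (mu s * gr act mu y0 n (act (x * s)⁻¹ (act g y0))) =
            mu s * (η * gr act mu y0 n (act (x * s)⁻¹ (act g y0))) := by ring
        _ ≤ mu s * (w (x * s) * gr act mu y0 N y0) := h6
        _ = mu s * w (x * s) * gr act mu y0 N y0 := by ring

theorem hit (h : IsProb mu) (hg : Generating mu) (hs : Symm mu)
    (hun : ∀ B : ℝ, ∃ N, B ≤ gr act mu y0 N y0) {w : G → ℝ} (hw : ∀ x, 0 ≤ w x)
    (hh : ∀ x, HasSum (fun s => mu s * w (x * s)) (w x)) {η : ℝ} (hη : 0 ≤ η) (g : G)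
    (hA : ∀ x, act x y0 = act g y0 → η ≤ w x) (x : G) : η ≤ w x := by
  by_contra hc
  rw [not_le] at hc
  obtain ⟨C, hC⟩ := gr_defect act y0 h hg (x⁻¹ * g)
  obtain ⟨N, hN⟩ := hun ((η * C + 1) / (η - w x))
  have h1 := w3_step act y0 h hs hw hh hη g hA N N le_rfl x
  have h2 := hC N
  have e : act x⁻¹ (act g y0) = act (x⁻¹ * g) y0 := by
    rw [w3_mul]
  rw [e] at h1
  rw [div_le_iff₀ (by linarith)] at hN
  have h3 : η * (gr act mu y0 N y0 - C) ≤ η * gr act mu y0 N (act (x⁻¹ * g) y0) :=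
    mul_le_mul_of_nonneg_left (by linarith) hη
  nlinarith

end Pool.Agent.H34.PW
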