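import Pool.Agent.H34.PW.W1
import Pool.Agent.H34.PW.W3

/-!
W4: `D x = u (g * b * g⁻¹ * x) - u x` is bounded and harmonic (`HasSum` for `u` at the points `g b g⁻¹ x` and `x`, subtract). If `act x y0 = act g y0`: `D x = u (x * b) - u x` (`h3` with `g' = x`), `act (x * b) y0 = act g y0`, `D (x * b) = u (x * b * b) - u (x * b) = - D x`.
`s = ⨆ |D|` (or the least upper bound of the bounded set of all `|D x|`). `s - D ≥ 0` and `s + D ≥ 0` are harmonic; Harnack for `b`: `p`, may assume `p ≤ 1` (replace by `min p 1`); for `x` with `act x y0 = act g y0`: `s - D x ≥ p * (s - D (x * b)) = p * (s + D x)`, so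
`s - D x ≥ 2 * p / (1 + p) * s =: η`; `hit`: `η ≤ s - D x` for all `x`; in the same way `η ≤ s + D x`; so `|D x| ≤ s - η` for all `x`, `s ≤ s - η`, `s = 0`.
-/

namespace Pool.Agent.H34.PW

open Pool.Agent.H34.LS Pool.Agent.H34.FL

universe u v

variable {G : Type u} [Group G] {Y : Type v} (act : G →* Equiv.Perm Y) {mu : G → ℝ} (y0 : Y)

theorem lamp_inv (h : IsProb mu) (hg : Generating mu) (hs : Symm mu)
    (hun : ∀ B : ℝ, ∃ N, B ≤ gr act mu y0 N y0) {b : G} (hb : act b y0 = y0) {u : G → ℝ}
    (hu : BddHarm mu u) (h2 : ∀ x, u (x * b * b) = u x)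
    (h3 : ∀ g g' x, act g y0 = act g' y0 → u (g * b * g⁻¹ * x) = u (g' * b * g'⁻¹ * x))
    (g x : G) : u (g * b * g⁻¹ * x) = u x := by
  obtain ⟨⟨C, hC⟩, hharm⟩ := hu
  obtain ⟨p, hp, hpw⟩ := harnack h hg b
  set D : G → ℝ := fun x => u (g * b * g⁻¹ * x) - u x with hD
  have hDb : ∀ x, |D x| ≤ C + C := fun x => (abs_sub _ _).trans (add_le_add (hC _) (hC _))
  have hbdd : BddAbove (Set.range fun x => |D x|) := ⟨C + C, by rintro _ ⟨x, rfl⟩; exact hDb x⟩
  have hDh : ∀ x, HasSum (fun s => mu s * D (x * s)) (D x) := by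
    intro x
    have h1 := (hharm (g * b * g⁻¹ * x)).sub (hharm x)
    refine h1.congr_fun ?_
    intro s
    simp only [hD, mul_assoc, mul_sub]
  set S : ℝ := ⨆ x, |D x| with hS
  have hle : ∀ x, |D x| ≤ S := fun x => le_ciSup hbdd x
  have hS0 : 0 ≤ S := (abs_nonneg _).trans (hle 1)
  have hcst : HasSum (fun s => mu s * S) S := by
    have := h.2.mul_right S
    simpa using this
  have hm0 : ∀ x, 0 ≤ S - D x := fun x => by have := (abs_le.1 (hle x)).2; linarith
  have hp0 : ∀ x, 0 ≤ S + D x := fun x => by have := (abs_le.1 (hle x)).1; linarith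
  have hmh : ∀ x, HasSum (fun s => mu s * (S - D (x * s))) (S - D x) := by
    intro x
    have h1 := hcst.sub (hDh x)
    refine h1.congr_fun ?_
    intro s
    ring
  have hph : ∀ x, HasSum (fun s => mu s * (S + D (x * s))) (S + D x) := by
    intro x
    have h1 := hcst.add (hDh x)
    refine h1.congr_fun ?_
    intro s
    ring
  have hloc : ∀ x, act x y0 = act g y0 → D (x * b) = -D x := by
    intro x hx
    have e1 : u (g * b * g⁻¹ * x) = u (x * b) := by
      rw [h3 g x x hx.symm]
      congr 1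
      group
    have hxb : act (x * b) y0 = act g y0 := by
      rw [map_mul, Equiv.Perm.mul_apply, hb, hx]
    have e2 : u (g * b * g⁻¹ * (x * b)) = u (x * b * b) := by
      rw [h3 g (x * b) (x * b) hxb.symm]
      congr 1
      group
    simp only [hD]
    rw [e1, e2, h2]
    ring
  set η : ℝ := 2 * p / (1 + p) * S with hη
  have hη0 : 0 ≤ η := by positivity
  have key : ∀ a : ℝ, p * (S + a) ≤ S - a → η ≤ S - a := by
    intro a ha
    rw [hη, div_mul_eq_mul_div, div_le_iff₀ (by linarith)]
    nlinarith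
  have hA1 : ∀ x, act x y0 = act g y0 → η ≤ S - D x := by
    intro x hx
    apply key
    have h1 := hpw (fun x => S - D x) hm0 hmh x
    simp only [hloc x hx, sub_neg_eq_add] at h1
    exact h1
  have hA2 : ∀ x, act x y0 = act g y0 → η ≤ S + D x := by
    intro x hx
    have h1 := hpw (fun x => S + D x) hp0 hph x
    simp only [hloc x hx] at h1
    have h2' := key (-D x) (by linarith)
    linarith
  have hB1 : ∀ x, η ≤ S - D x := fun x => hit act y0 h hg hs hun hm0 hmh hη0 g hA1 x
  have hB2 : ∀ x, η ≤ S + D x := fun x => hit act y0 h hg hs hun hp0 hph hη0 g hA2 x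
  have hSle : S ≤ S - η := by
    refine ciSup_le fun x => abs_le.2 ⟨?_, ?_⟩
    · have := hB2 x
      linarith
    · have := hB1 x
      linarith
  have hη1 : η ≤ 0 := by linarith
  have hc : 0 < 2 * p / (1 + p) := by positivity
  have hSz : S ≤ 0 := by
    by_contra hcon
    push Not at hcon
    have : 0 < η := mul_pos hc hcon
    linarith
  have hDx : D x = 0 := abs_nonpos_iff.1 ((hle x).trans hSz)
  have : u (g * b * g⁻¹ * x) - u x = 0 := hDx
  linarith

end Pool.Agent.H34.PW
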