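import Pool.Agent.H34.MI.A
import Pool.Agent.H34.PW.Defs

/-!
Y1: the action of `GG` on `YY`. `fib`: every `g ∈ gamma` has the form `g (y, e) = (ḡ y, c y + e)`: `Subgroup.closure_induction` over `g ∈ gamma` (generators `tX 1, aX, bX`; products; inverses). `actY g y = (g (y, 0)).1` as a permutation with inverse `(g⁻¹ (y, 0)).1`.
`actY_form`: `actY g (v, m) = (v + (actY g (0, m)).1, m + hgt g)`, by induction over the generators (`gT, gA, gB`, `Subgroup.closure_induction` over `gS_closure`, or over `gamma`); the height part is `height_spec`.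
-/

namespace Pool.Agent.H34.PW

open Pool.Agent.H34.LS Pool.Agent.H34.MI

private theorem y1_fib {g : Equiv.Perm XX} (hg : g ∈ gamma) : ∀ (y : YY) (e : ZMod 2),
    g (y, e) = ((g (y, 0)).1, (g (y, 0)).2 + e) := by
  refine Subgroup.closure_induction
    (p := fun g _ => ∀ (y : YY) (e : ZMod 2), g (y, e) = ((g (y, 0)).1, (g (y, 0)).2 + e))
    ?_ ?_ ?_ ?_ hg
  · intro g hg y e
    rcases hg with rfl | rfl | hg
    · rw [tX_apply, tX_apply]
      dsimp only
      rw [zero_add]
    · rw [aX_apply, aX_apply]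
      dsimp only
      rw [zero_add]
    · rw [Set.mem_singleton_iff.1 hg, bX_apply, bX_apply]
      dsimp only
      rw [zero_add, add_comm]
  · intro y e
    rw [Equiv.Perm.one_apply, Equiv.Perm.one_apply]
    dsimp only
    rw [zero_add]
  · intro g h _ _ ihg ihh y e
    rw [Equiv.Perm.mul_apply, Equiv.Perm.mul_apply, ihh y e, ihg _ ((h (y, 0)).2 + e)]
    have h1 : h (y, 0) = ((h (y, 0)).1, (h (y, 0)).2) := rfl
    rw [h1, ihg _ (h (y, 0)).2]
    dsimp only
    rw [add_assoc]
  · intro g _ ih y e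
    have e1 : ∀ z, g (g⁻¹ z) = z := fun z => by rw [← Equiv.Perm.mul_apply, mul_inv_cancel]; rfl
    apply g.injective
    rw [e1, ih _ ((g⁻¹ (y, 0)).2 + e)]
    have h1 := ih (g⁻¹ (y, 0)).1 (g⁻¹ (y, 0)).2
    have h2 : ((g⁻¹ (y, 0)).1, (g⁻¹ (y, 0)).2) = g⁻¹ (y, 0) := rfl
    rw [h2, e1, Prod.mk.injEq] at h1
    rw [← h1.1, ← add_assoc, ← h1.2, zero_add]

theorem fib (g : GG) (y : YY) (e : ZMod 2) : (g : Equiv.Perm XX) (y, e) =
    (((g : Equiv.Perm XX) (y, 0)).1, ((g : Equiv.Perm XX) (y, 0)).2 + e) :=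
  y1_fib g.2 y e

private theorem y1_mul (g h : GG) (y : YY) : (((g * h : GG) : Equiv.Perm XX) (y, 0)).1 =
    ((g : Equiv.Perm XX) (((h : Equiv.Perm XX) (y, 0)).1, 0)).1 := by
  rw [Subgroup.coe_mul, Equiv.Perm.mul_apply]
  have h1 : (h : Equiv.Perm XX) (y, 0) =
      (((h : Equiv.Perm XX) (y, 0)).1, ((h : Equiv.Perm XX) (y, 0)).2) := rfl
  conv_lhs => rw [h1]
  rw [fib g]

private theorem y1_one (y : YY) : (((1 : GG) : Equiv.Perm XX) (y, 0)).1 = y := rfl

/-- the action on `YY`. -/
noncomputable def actY : GG →* Equiv.Perm YY where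
  toFun g :=
    { toFun := fun y => ((g : Equiv.Perm XX) (y, 0)).1
      invFun := fun y => ((g⁻¹ : GG) : Equiv.Perm XX) (y, 0) |>.1
      left_inv := by
        intro y
        dsimp only
        rw [← y1_mul, inv_mul_cancel, y1_one]
      right_inv := by
        intro y
        dsimp only
        rw [← y1_mul, mul_inv_cancel, y1_one] }
  map_one' := by
    ext1 y
    rfl
  map_mul' := by
    intro g h
    ext1 y
    exact y1_mul g h y

theorem actY_apply (g : GG) (y : YY) : actY g y = ((g : Equiv.Perm XX) (y, 0)).1 := rfl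

theorem actY_T (y : YY) : actY gT y = (y.1, y.2 + 1) := rfl

theorem actY_A (y : YY) : actY gA y = (y.1 + ee y.2, y.2) := rfl

theorem actY_B (y : YY) : actY gB y = y := rfl

private theorem y1_gen {g : GG} (hg : g ∈ gS) (v : ℕ → ZMod 2) (m : ℤ) :
    actY g (v, m) = (v + (actY g (0, m)).1, m + Multiplicative.toAdd (hgt g)) := by
  rcases hg with rfl | rfl | hg
  · rw [actY_T, actY_T, hgt_T]
    dsimp only
    rw [add_zero]
  · rw [actY_A, actY_A, hgt_A]
    dsimp only
    rw [zero_add, add_zero]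
  · rw [Set.mem_singleton_iff.1 hg, actY_B, actY_B, hgt_B]
    dsimp only
    rw [add_zero, add_zero]

theorem actY_form (g : GG) (v : ℕ → ZMod 2) (m : ℤ) :
    actY g (v, m) = (v + (actY g (0, m)).1, m + Multiplicative.toAdd (hgt g)) := by
  have hg : g ∈ Subgroup.closure gS := by rw [gS_closure]; exact Subgroup.mem_top g
  revert v m
  refine Subgroup.closure_induction
    (p := fun g _ => ∀ (v : ℕ → ZMod 2) (m : ℤ),
      actY g (v, m) = (v + (actY g (0, m)).1, m + Multiplicative.toAdd (hgt g)))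
    ?_ ?_ ?_ ?_ hg
  · intro g hg v m
    exact y1_gen hg v m
  · intro v m
    rw [map_one, map_one, toAdd_one, Equiv.Perm.one_apply, Equiv.Perm.one_apply]
    dsimp only
    rw [add_zero, add_zero]
  · intro g h _ _ ihg ihh v m
    rw [map_mul, map_mul, toAdd_mul, Equiv.Perm.mul_apply, Equiv.Perm.mul_apply, ihh v m,
      ihh 0 m, ihg (v + _), ihg (0 + _)]
    dsimp only
    rw [zero_add, ← add_assoc v, add_assoc m,
      add_comm (Multiplicative.toAdd (hgt h)) (Multiplicative.toAdd (hgt g))]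
  · intro g _ ih v m
    have e1 : ∀ z, actY g ((actY g)⁻¹ z) = z := fun z => by
      rw [← Equiv.Perm.mul_apply, mul_inv_cancel]; rfl
    have key : ∀ v : ℕ → ZMod 2, (actY g)⁻¹ (v, m) =
        (v - (actY g (0, m - Multiplicative.toAdd (hgt g))).1, m - Multiplicative.toAdd (hgt g)) := by
      intro v
      apply (actY g).injective
      rw [e1, ih (v - _)]
      rw [sub_add_cancel, sub_add_cancel]
    rw [map_inv, map_inv, toAdd_inv, key v, key 0]
    dsimp only
    rw [zero_sub, sub_eq_add_neg, sub_eq_add_neg]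

end Pool.Agent.H34.PW
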