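import Pool.Agent.H34.PW.Y1

/-!
Y3b: `conj_B`: by `fib` the permutation `g B g⁻¹` of `XX` is `x ↦ (x.1, x.2 + pt (actY g (0, 0)) x.1)` (put `x = g z`, `bX z = (z.1, z.2 + pt (0,0) z.1)`), so it depends only on `actY g (0, 0)`. `ker_actY`: if `actY g = 1`, then `g` is in the normal closure of `gB`: every `g` is `n * h` with `n` in the
normal closure `N` and `h ∈ H = closure {gT, gA}` (the set of such products is a subgroup containing the generators: `N ⊔ H = ⊤`, `Subgroup.mul_normal` / `Subgroup.mem_sup` ; `N` acts trivially on `YY` and every `h ∈ H` satisfies `h (y, e) = (actY h y, e)`; so `actY h = 1` gives `h = 1`).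
`inv_B`: `u (n * x) = u x` for `n` in the normal closure (`Subgroup.closure_induction` over the conjugates: `Subgroup.normalClosure`, `Group.conjugatesOfSet`), so `u` depends only on `actY`.
-/

namespace Pool.Agent.H34.PW

open Pool.Agent.H34.LS Pool.Agent.H34.MI

private theorem y3b_snd {h : GG} (hh : h ∈ Subgroup.closure ({gT, gA} : Set GG)) :
    ∀ x : XX, ((h : Equiv.Perm XX) x).2 = x.2 := by
  refine Subgroup.closure_induction
    (p := fun (g : GG) _ => ∀ x : XX, ((g : Equiv.Perm XX) x).2 = x.2) ?_ ?_ ?_ ?_ hh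
  · intro g hg x
    rcases hg with rfl | hg
    · rfl
    · rw [Set.mem_singleton_iff.1 hg]
      rfl
  · intro x
    rfl
  · intro g k _ _ ihg ihk x
    rw [Subgroup.coe_mul, Equiv.Perm.mul_apply, ihg, ihk]
  · intro g _ ih x
    have h1 := ih (((g⁻¹ : GG) : Equiv.Perm XX) x)
    have h2 : (g : Equiv.Perm XX) (((g⁻¹ : GG) : Equiv.Perm XX) x) = x := by
      rw [← Equiv.Perm.mul_apply, ← Subgroup.coe_mul, mul_inv_cancel]
      rfl
    rw [h2] at h1
    exact h1.symm

private theorem y3b_normal_le : Subgroup.normalClosure ({gB} : Set GG) ≤ actY.ker := by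
  refine Subgroup.normalClosure_le_normal ?_
  intro g hg
  rw [Set.mem_singleton_iff.1 hg]
  change actY gB = 1
  ext1 y
  exact actY_B y

private theorem y3b_sup :
    Subgroup.normalClosure ({gB} : Set GG) ⊔ Subgroup.closure ({gT, gA} : Set GG) = ⊤ := by
  rw [eq_top_iff, ← gS_closure, Subgroup.closure_le]
  intro g hg
  rcases hg with rfl | rfl | hg
  · exact (le_sup_right : Subgroup.closure ({gT, gA} : Set GG) ≤ _)
      (Subgroup.subset_closure (Or.inl rfl))
  · exact (le_sup_right : Subgroup.closure ({gT, gA} : Set GG) ≤ _)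
      (Subgroup.subset_closure (Or.inr rfl))
  · exact (le_sup_left : Subgroup.normalClosure ({gB} : Set GG) ≤ _)
      (Subgroup.subset_normalClosure hg)

theorem ker_actY {g : GG} (h : actY g = 1) : g ∈ Subgroup.normalClosure ({gB} : Set GG) := by
  have h1 : g ∈ Subgroup.normalClosure ({gB} : Set GG) ⊔ Subgroup.closure ({gT, gA} : Set GG) := by
    rw [y3b_sup]
    exact Subgroup.mem_top g
  rw [← SetLike.mem_coe, Subgroup.normal_mul, Set.mem_mul] at h1
  obtain ⟨n, hn, k, hk, rfl⟩ := h1
  have h2 : actY n = 1 := y3b_normal_le hn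
  have h3 : actY k = 1 := by rwa [map_mul, h2, one_mul] at h
  have h4 : k = 1 := by
    apply Subtype.ext
    ext1 x
    have h5 := fib k x.1 x.2
    have h6 := y3b_snd hk (x.1, 0)
    have h7 : ((k : Equiv.Perm XX) (x.1, 0)).1 = x.1 := by
      rw [← actY_apply, h3]
      rfl
    rw [h7, h6] at h5
    change (k : Equiv.Perm XX) x = x
    have h8 : (x.1, (0 : ZMod 2) + x.2) = x := by rw [zero_add]
    exact h5.trans h8
  rw [h4, mul_one]
  exact hn

theorem inv_B {u : GG → ℝ} (hu : ∀ g x, u (g * gB * g⁻¹ * x) = u x) {x x' : GG}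
    (h : actY x = actY x') : u x = u x' := by
  have h1 : x * x'⁻¹ ∈ Subgroup.normalClosure ({gB} : Set GG) := by
    apply ker_actY
    rw [map_mul, map_inv, h, mul_inv_cancel]
  have h2 : ∀ n ∈ Subgroup.normalClosure ({gB} : Set GG), ∀ y, u (n * y) = u y := by
    intro n hn
    refine Subgroup.closure_induction (p := fun (g : GG) _ => ∀ y, u (g * y) = u y)
      ?_ ?_ ?_ ?_ hn
    · intro g hg y
      obtain ⟨b, hb, hc⟩ := Group.mem_conjugatesOfSet_iff.1 hg
      rw [Set.mem_singleton_iff.1 hb] at hc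
      obtain ⟨c, rfl⟩ := isConj_iff.1 hc
      exact hu c y
    · intro y
      rw [one_mul]
    · intro g k _ _ ihg ihk y
      rw [mul_assoc, ihg, ihk]
    · intro g _ ih y
      rw [← ih (g⁻¹ * y), mul_inv_cancel_left]
  have h3 := h2 _ h1 x'
  rwa [inv_mul_cancel_right] at h3

end Pool.Agent.H34.PW
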