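import Pool.Agent.H34.PW.Y1

/-!
Y3a: `conj_B`: by `fib` the permutation `g B g⁻¹` of `XX` is `x ↦ (x.1, x.2 + pt (actY g (0, 0)) x.1)` (put `x = g z`, `bX z = (z.1, z.2 + pt (0,0) z.1)`), so it depends only on `actY g (0, 0)`. `ker_actY`: if `actY g = 1`, then `g` is in the normal closure of `gB`: every `g` is `n * h` with `n` in the
normal closure `N` and `h ∈ H = closure {gT, gA}` (the set of such products is a subgroup containing the generators: `N ⊔ H = ⊤`, `Subgroup.mul_normal` / `Subgroup.mem_sup` ; `N` acts trivially on `YY` and every `h ∈ H` satisfies `h (y, e) = (actY h y, e)`; so `actY h = 1` gives `h = 1`).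
`inv_B`: `u (n * x) = u x` for `n` in the normal closure (`Subgroup.closure_induction` over the conjugates: `Subgroup.normalClosure`, `Group.conjugatesOfSet`), so `u` depends only on `actY`.
-/

namespace Pool.Agent.H34.PW

open Pool.Agent.H34.LS Pool.Agent.H34.MI

private theorem y3a_pt (g : GG) (y : YY) :
    pt (0, 0) y = pt (actY g (0, 0)) (actY g y) := by
  by_cases hy : y = (0, 0)
  · subst hy
    rw [pt_self, pt_self]
  · rw [pt_ne hy, pt_ne]
    intro h
    exact hy ((actY g).injective h)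

private theorem y3a_conj (g : GG) (x : XX) :
    ((g * gB * g⁻¹ : GG) : Equiv.Perm XX) x = (x.1, x.2 + pt (actY g (0, 0)) x.1) := by
  obtain ⟨z, rfl⟩ := (g : Equiv.Perm XX).surjective x
  have h1 : ((g * gB * g⁻¹ : GG) : Equiv.Perm XX) ((g : Equiv.Perm XX) z) =
      (g : Equiv.Perm XX) (bX z) := by
    change (g : Equiv.Perm XX) (bX ((g : Equiv.Perm XX)⁻¹ ((g : Equiv.Perm XX) z))) = _
    exact congrArg (fun w => (g : Equiv.Perm XX) (bX w)) ((g : Equiv.Perm XX).symm_apply_apply z)
  have h2 : (g : Equiv.Perm XX) z = (((g : Equiv.Perm XX) (z.1, 0)).1,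
      ((g : Equiv.Perm XX) (z.1, 0)).2 + z.2) := fib g z.1 z.2
  have h3 : ((g : Equiv.Perm XX) z).1 = actY g z.1 := by
    rw [actY_apply, h2]
  have h4 : ((g : Equiv.Perm XX) z).2 = ((g : Equiv.Perm XX) (z.1, 0)).2 + z.2 := by
    rw [h2]
  rw [h1, bX_apply, fib g z.1, ← actY_apply, h3, h4, ← y3a_pt g z.1, add_assoc]

theorem conj_B {g g' : GG} (h : actY g (0, 0) = actY g' (0, 0)) :
    g * gB * g⁻¹ = g' * gB * g'⁻¹ := by
  apply Subtype.ext
  apply Equiv.ext
  intro x
  rw [y3a_conj, y3a_conj, h]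

end Pool.Agent.H34.PW
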