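import Pool.Agent.H34.PW.Y3

/-!
Y4a: `conj_A`: `actY (g A g⁻¹) (v, m) = (v + ee (m - hgt g), m)` by `actY_form` (write `(v, m) = actY g (v', m')`, `m' = m - hgt g`, `actY g (v' + w, m') = actY g (v', m') + (w, 0)`), so it depends only on `hgt g`. `inv_AB`: if `u` is invariant under all conjugates of `gA` and `gB` (left multiplication),
then `u` depends only on the height: the normal closure of `{gA, gB}` and the powers of `gT` give everything: `N ⊔ zpowers gT = ⊤`; if `hgt x = hgt x'`, then `x = n gT^k`, `x' = n' gT^k'`, `k = k'` (`hgt_T`, `N ≤ ker`), so `x' = (n' n⁻¹) x`.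
-/

namespace Pool.Agent.H34.PW

open Pool.Agent.H34.LS Pool.Agent.H34.MI

private theorem y4a_form (g : GG) (y : YY) :
    actY (g * gA * g⁻¹) y = (y.1 + ee (y.2 - Multiplicative.toAdd (hgt g)), y.2) := by
  obtain ⟨⟨v, m⟩, rfl⟩ := (actY g).surjective y
  have h1 : actY (g * gA * g⁻¹) (actY g (v, m)) = actY g (v + ee m, m) := by
    have h2 : actY (g * gA * g⁻¹) (actY g (v, m)) = actY (g * gA * g⁻¹ * g) (v, m) := by
      rw [map_mul actY (g * gA * g⁻¹) g, Equiv.Perm.mul_apply]
    rw [h2, inv_mul_cancel_right, map_mul, Equiv.Perm.mul_apply, actY_A]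
  rw [h1, actY_form g (v + ee m) m, actY_form g v m]
  refine Prod.ext ?_ rfl
  show v + ee m + (actY g (0, m)).1 = v + (actY g (0, m)).1 +
    ee (m + Multiplicative.toAdd (hgt g) - Multiplicative.toAdd (hgt g))
  rw [add_sub_cancel_right]
  abel

theorem conj_A {g g' : GG} (h : hgt g = hgt g') : actY (g * gA * g⁻¹) = actY (g' * gA * g'⁻¹) := by
  refine Equiv.ext fun y => ?_
  rw [y4a_form, y4a_form, h]

end Pool.Agent.H34.PW
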