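import Pool.Agent.H34.PW.W2
import Pool.Agent.H34.MI.A
import Pool.Agent.H34.DA.F1
import Pool.Agent.H34.DA.I

/-!
Z1a: `gr_factor`: induction on `N` (indicator of `{y0}` at `y` is at most the indicator of `{π y0}` at `π y`; `gr_summable` for both). `hgt_const`: a bounded harmonic function which depends only on the height is constant: `v k = u (gT ^ k)`, `u x = v (toAdd (hgt x))`, `q = image (fun g => toAdd (hgt g)) mu` (`image_prob`, `image_sum`),
`v k = ∑' j, q j * v (k + j)`; the support of `q` generates `ℤ` (as in DA/I2 `image_pos_gen`; `hgt_surj`), `cd_int`.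
-/

namespace Pool.Agent.H34.PW

open Pool.Agent.H34.LS Pool.Agent.H34.FL Pool.Agent.H34.MI

universe u v w

theorem gr_factor {G : Type u} [Group G] {Y : Type v} {Z : Type w} (act : G →* Equiv.Perm Y)
    (act' : G →* Equiv.Perm Z) (π : Y → Z) (hπ : ∀ g y, π (act g y) = act' g (π y)) {mu : G → ℝ}
    (h : IsProb mu) (y0 y : Y) (N : ℕ) : gr act mu y0 N y ≤ gr act' mu (π y0) N (π y) := by
  induction N generalizing y with
  | zero => exact le_refl _
  | succ n ih =>
    have h1 : Set.indicator {y0} (fun _ => (1 : ℝ)) y ≤
        Set.indicator {π y0} (fun _ => (1 : ℝ)) (π y) := by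
      by_cases hy : y = y0
      · subst hy
        simp
      · rw [Set.indicator_of_notMem (by simpa using hy)]
        exact Set.indicator_nonneg (fun _ _ => zero_le_one) _
    have h2 : avg act mu (gr act mu y0 n) y ≤ avg act' mu (gr act' mu (π y0) n) (π y) := by
      refine Summable.tsum_le_tsum (fun s => ?_) (gr_summable act y0 h n y)
        (gr_summable act' (π y0) h n (π y))
      refine mul_le_mul_of_nonneg_left ?_ (h.1 s)
      rw [← hπ]
      exact ih (act s y)
    exact add_le_add h1 h2

end Pool.Agent.H34.PW
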