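import Pool.Agent.H34.PW.Defs
import Pool.Agent.H34.CM.M1

/-!
Z2a: `image_symm`: `image theta mu y⁻¹ = image theta mu y`: the fibres over `y` and `y⁻¹` correspond under `g ↦ g⁻¹` (`Equiv.tsum_eq`). `trunc_pos`: `trunc = 0` would give `mu g * min(..)^2 = 0` for all `g` (`hasSum_zero_iff_of_nonneg`; summable since the factors are at most `4^j`), so `wordLength S g = 0`, `g = 1` for all `g` in the support
(then `Generating` gives that `G` is trivial). `image_slow`: `trunc (theta '' S) (image mu) j = ∑' g, mu g * (min (wordLength (theta '' S) (theta g)) 2^j)^2 ≤ trunc S mu j` (`image_sum`, `wl_map_le`), so the inverses for the image are at least those for `mu` (`trunc_pos` for the image, `inv_anti₀`), `Summable.of_nonneg_of_le`.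
-/

namespace Pool.Agent.H34.PW

open Pool.Agent.H34.LS Pool.Agent.H34.FL Pool.Agent.H34.DA Pool.Agent.H34.CM

universe u v

variable {G : Type u} [Group G] {G' : Type v} [Group G']

theorem image_symm (theta : G →* G') {mu : G → ℝ} (hs : Symm mu) :
    Symm (image (fun g => theta g) mu) := by
  intro y
  let ε : {g : G // theta g = y⁻¹} ≃ {g : G // theta g = y} :=
    { toFun := fun g => ⟨(g : G)⁻¹, by rw [map_inv, g.2, inv_inv]⟩
      invFun := fun g => ⟨(g : G)⁻¹, by rw [map_inv, g.2]⟩
      left_inv := fun g => Subtype.ext (inv_inv _)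
      right_inv := fun g => Subtype.ext (inv_inv _) }
  change (∑' g : {g : G // theta g = y⁻¹}, mu g) = ∑' g : {g : G // theta g = y}, mu g
  rw [← ε.tsum_eq fun g : {g : G // theta g = y} => mu g]
  exact tsum_congr fun g => (hs g).symm

theorem trunc_pos [Nontrivial G] {mu : G → ℝ} (h : IsProb mu) (hg : Generating mu) {S : Set G}
    (hS : Subgroup.closure S = ⊤) (j : ℕ) : 0 < trunc S mu j := by
  have hnn : ∀ g, 0 ≤ mu g * (min (wordLength S g : ℝ) (2 ^ j)) ^ 2 := fun g =>
    mul_nonneg (h.1 g) (sq_nonneg _)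
  have hsum : Summable fun g => mu g * (min (wordLength S g : ℝ) (2 ^ j)) ^ 2 := by
    refine Summable.of_nonneg_of_le hnn (fun g => ?_) (h.2.summable.mul_right (((2 : ℝ) ^ j) ^ 2))
    refine mul_le_mul_of_nonneg_left ?_ (h.1 g)
    exact pow_le_pow_left₀ (le_min (Nat.cast_nonneg _) (by positivity)) (min_le_right _ _) 2
  obtain ⟨g, hg1, hgm⟩ : ∃ g : G, g ≠ 1 ∧ mu g ≠ 0 := by
    by_contra hcon
    push Not at hcon
    have h1 : Submonoid.closure (Function.support mu) ≤ ⊥ := by
      rw [Submonoid.closure_le]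
      intro g hgs
      by_contra hne
      exact hgs (hcon g fun h => hne (by simpa using h))
    rw [hg] at h1
    obtain ⟨a, ha⟩ := exists_ne (1 : G)
    have h2 := h1 (Submonoid.mem_top a)
    exact ha (by simpa using h2)
  have hpos : 0 < mu g * (min (wordLength S g : ℝ) (2 ^ j)) ^ 2 := by
    have h1 : 0 < wordLength S g := Nat.pos_of_ne_zero fun h2 => hg1 ((wl_eq_zero hS).1 h2)
    have h2 : (0 : ℝ) < wordLength S g := by exact_mod_cast h1
    have h3 : 0 < mu g := lt_of_le_of_ne (h.1 g) (Ne.symm hgm)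
    exact mul_pos h3 (pow_pos (lt_min h2 (by positivity)) 2)
  exact lt_of_lt_of_le hpos (hsum.le_tsum g fun i _ => hnn i)

end Pool.Agent.H34.PW
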